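import Pool.Agent.H74.KJ.PUR
import Pool.Agent.H72.KJ.Stmts

/-!
# Row J3 of LEMMA J

Remez inequality from a sub-cube to the leaf, for all polynomials at once.
-/

set_option autoImplicit false

namespace Pool.KJ74

open Finset Real Module
open Pool.Agent.H49.Ent Pool.Agent.H32.Dense Pool.STK Pool.KAF Pool.KAL Pool.KST Pool.KS3 Pool.KJ

/-- Filling a leaf, all polynomials at once. -/
theorem flu (n D k₀ : ℕ) (C₀ : ℝ) (hC₀ : 1 ≤ C₀) : ∃ C : ℝ, 0 ≤ C ∧
    ∀ (a L : ℕ) (Ω Λ Ξ Z : Type) [Fintype Ω] (p : Ω → ℝ) (lam : Ω → Λ)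
      (x : Ω → Ξ) (T : Ξ → ℕ) (pos : Ξ → Option (Fin n) → ℕ) (A B : Λ → Option (Fin n) → ℝ)
      (zx : Ξ → Z) (zl : Λ → ℕ → Z) (cz : Z → Option (Fin n) → ℕ)
      (G : Z → MvPolynomial (Fin n) ℝ) (κ γ N : ℕ) (δ ε e₁ e₃ h : ℝ) (e : Ξ → ℝ),
      StepH n a L C₀ k₀ κ γ N δ ε e₁ e₃ p lam x T pos A B zx zl cz G e → 0 < h →
      (∑ ω, (open Classical in
        if ∃ F : MvPolynomial.restrictTotalDegree (Option (Fin n)) ℝ D, F ≠ 0 ∧
          Real.exp h * NZ D p x zx (2 ^ (a + L)) pos (6 * C₀ / 2 ^ (a + L)) 1 (zx (x ω)) F <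
          TZ a L C₀ cz G (F : MvPolynomial (Option (Fin n)) ℝ) (zx (x ω))
        then p ω else 0)) ≤ (C * RR n L κ γ N ε e₁ e₃) / h := by
  classical
  obtain ⟨C, hC, H⟩ := flz n D k₀ C₀ hC₀
  refine ⟨C + 1, by linarith only [hC], ?_⟩
  intro a L Ω Λ Ξ Z _ p lam x T pos A B zx zl cz G κ γ N δ ε e₁ e₃ h e hH hh
  have hS := hH.step
  have hp := hS.leaf.isLaw
  have hp0 := hp.nonneg
  set h₀ : ℝ := 6 * C₀ / 2 ^ (a + L) with hh₀
  have hC0 : (0 : ℝ) < C₀ := by linarith only [hC₀]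
  have hh₀0 : 0 < h₀ := by positivity
  set M : ℕ := 2 ^ (a + L) with hM
  set V := MvPolynomial.restrictTotalDegree (Option (Fin n)) ℝ D with hV
  set bad : Z → V → Prop := fun ζ F => F ≠ 0 ∧
    Real.exp h * NZ D p x zx M pos h₀ 1 ζ F <
      TZ a L C₀ cz G (F : MvPolynomial (Option (Fin n)) ℝ) ζ with hbad
  set Fc : Z → V := fun ζ => if hg : ∃ F : V, bad ζ F then hg.choose else onV _ D with hFc
  have hFcne : ∀ ζ, Fc ζ ≠ 0 := by
    intro ζ
    simp only [hFc]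
    split_ifs with hg
    · exact hg.choose_spec.1
    · exact onV_ne_zero _ _
  have hFcne' : ∀ ζ, ((Fc ζ : V) : MvPolynomial (Option (Fin n)) ℝ) ≠ 0 := fun ζ h0 =>
    hFcne ζ (Subtype.ext h0)
  have hT0 : ∀ ω, 0 < p ω → 0 < TZ a L C₀ cz G (Fc (zx (x ω)) : MvPolynomial _ ℝ) (zx (x ω)) :=
    fun ω hω => hH.TZ_pos hC₀ (hFcne' _) hω
  have h1 := H a L Ω Λ Ξ Z p lam x T pos A B zx zl cz G κ γ N δ ε e₁ e₃ e
    (fun ζ => shf (Fc ζ : MvPolynomial _ ℝ) (1 / 2 ^ a) (crz cz a ζ))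
    (fun ζ => TZ a L C₀ cz G (Fc ζ : MvPolynomial _ ℝ) ζ / 2) hH
    (fun ω hω => ⟨shf_ne_zero (hFcne' _) (by positivity) _,
      (totalDegree_shf_le _ _ _).trans (deg_le _)⟩)
    (fun ω hω => ⟨by
        have := hT0 ω hω
        positivity,
      TT_near (hH.reg ω hω) (by linarith only [hC₀]) (by positivity)
        (shf_ne_zero (hFcne' _) (by positivity) _) (by positivity)⟩)
  have h2 : Ex p (fun ω => Real.log (TZ a L C₀ cz G (Fc (zx (x ω)) : MvPolynomial _ ℝ)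
      (zx (x ω)) / 2)) = Ex p (fun ω => Real.log (TZ a L C₀ cz G
        (Fc (zx (x ω)) : MvPolynomial _ ℝ) (zx (x ω)))) - Real.log 2 := by
    have h1 : Ex p (fun ω => Real.log (TZ a L C₀ cz G (Fc (zx (x ω)) : MvPolynomial _ ℝ)
      (zx (x ω)) / 2)) = Ex p (fun ω => Real.log (TZ a L C₀ cz G
        (Fc (zx (x ω)) : MvPolynomial _ ℝ) (zx (x ω))) - Real.log 2) := by
      unfold Ex
      refine Finset.sum_congr rfl fun ω _ => ?_
      by_cases hω : 0 < p ω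
      · dsimp only
        rw [Real.log_div (hT0 ω hω).ne' (by norm_num)]
      · have h0 : p ω = 0 := le_antisymm (not_lt.mp hω) (hp0 ω)
        rw [h0, zero_mul, zero_mul]
    rw [h1, Ex_sub, Ex_const hp.sum_one]
  have h3 : Ex p (fun ω => Real.log (Psi (shf (Fc (zx (x ω)) : MvPolynomial _ ℝ) (1 / 2 ^ a)
      (crz cz a (zx (x ω)))) (6 * C₀ / 2 ^ L) (rp (2 ^ L) (posS pos L) (x ω)))) ≤
      Ex p (fun ω => Real.log (NZ D p x zx M pos h₀ 1 (zx (x ω)) (Fc (zx (x ω))))) := by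
    refine Ex_mono hp0 fun ω hω => ?_
    rw [hH.Psi_eq]
    refine Real.log_le_log (Psi_pos _ (hFcne' _) _ hh₀0 _) ?_
    have h4 := le_NZ (D := D) (p := p) (x := x) (zx := zx) (M := M) (pos := pos) (h := h₀)
      one_ne_zero hω (Fc (zx (x ω)))
    rwa [PsiC_one] at h4
  rw [h2] at h1
  have h5 : ∀ ω, 0 < p ω → NZ D p x zx M pos h₀ 1 (zx (x ω)) (Fc (zx (x ω))) ≤
      TZ a L C₀ cz G (Fc (zx (x ω)) : MvPolynomial _ ℝ) (zx (x ω)) := by
    intro ω hω
    obtain ⟨ω', hω', hz, he⟩ := NZ_attained (D := D) (x := x) (zx := zx) (M := M) (pos := pos)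
      (h := h₀) one_ne_zero hω (Fc (zx (x ω)))
    rw [he, PsiC_one, ← hz]
    exact hH.le_TZ hC₀ _ hω'
  have h6 : (∑ ω, if ∃ F : V, bad (zx (x ω)) F then p ω else 0) * h ≤
      Ex p (fun ω => Real.log (TZ a L C₀ cz G (Fc (zx (x ω)) : MvPolynomial _ ℝ) (zx (x ω))) -
        Real.log (NZ D p x zx M pos h₀ 1 (zx (x ω)) (Fc (zx (x ω))))) := by
    rw [Finset.sum_mul]
    unfold Ex
    refine Finset.sum_le_sum fun ω _ => ?_
    by_cases hω : 0 < p ω
    · have hb1 := NZ_pos (D := D) (p := p) (x := x) (zx := zx) (M := M) (pos := pos) hh₀0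
        one_pos (zx (x ω)) (hFcne (zx (x ω)))
      split_ifs with hg
      · refine mul_le_mul_of_nonneg_left ?_ hω.le
        have hg1 : bad (zx (x ω)) (Fc (zx (x ω))) := by
          simp only [hFc]
          rw [dif_pos hg]
          exact hg.choose_spec
        have hg2 := Real.log_le_log (mul_pos (Real.exp_pos h) hb1) hg1.2.le
        rw [Real.log_mul (Real.exp_pos h).ne' hb1.ne', Real.log_exp] at hg2
        linarith only [hg2]
      · rw [zero_mul]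
        refine mul_nonneg hω.le ?_
        have := Real.log_le_log hb1 (h5 ω hω)
        linarith only [this]
    · have h0 : p ω = 0 := le_antisymm (not_lt.mp hω) (hp0 ω)
      rw [h0]
      simp
  rw [Ex_sub] at h6
  rw [le_div_iff₀ hh]
  have h7 : (∑ ω, if ∃ F : V, F ≠ 0 ∧
      Real.exp h * NZ D p x zx M pos h₀ 1 (zx (x ω)) F <
        TZ a L C₀ cz G (F : MvPolynomial (Option (Fin n)) ℝ) (zx (x ω))
      then p ω else 0) * h ≤ Ex p (fun ω => Real.log (TZ a L C₀ cz G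
        (Fc (zx (x ω)) : MvPolynomial _ ℝ) (zx (x ω)))) -
        Ex p (fun ω => Real.log (NZ D p x zx M pos h₀ 1 (zx (x ω)) (Fc (zx (x ω))))) := h6
  obtain ⟨hR0, hR1, hR2⟩ := hH.le_RR
  have hl : Real.log 2 ≤ 1 := by
    have := Real.log_two_lt_d9
    linarith only [this]
  have h8 : (C + 1) * RR n L κ γ N ε e₁ e₃ =
      C * RR n L κ γ N ε e₁ e₃ + RR n L κ γ N ε e₁ e₃ := by ring
  rw [h8]
  linarith only [h1, h3, h6, hR1, hl]

section pure

variable {n : ℕ}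

/-- The jets at a point over a sub-cube are bounded by the norm `NB` of the sub-cube. -/
theorem cell_jet (n D k₀ : ℕ) (C₀ : ℝ) (hC₀ : 1 ≤ C₀) : ∃ B : ℝ, 1 ≤ B ∧
    ∀ (G : MvPolynomial (Fin n) ℝ), RegG G (fun _ => 0) 1 k₀ (3 * C₀) →
    ∀ (P : MvPolynomial (Option (Fin n)) ℝ), P.totalDegree ≤ D → ∀ (L b : ℕ) (c : Fin n → ℝ),
      b ≤ L → cube c (1 / 2 ^ b) ⊆ cube (fun _ => 0) 1 → ∀ z : Option (Fin n) → ℝ,
      (fun i => z (some i)) ∈ cube c (1 / 2 ^ b) →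
      |z none - MvPolynomial.eval (fun i => z (some i)) G| ≤ 3 * C₀ / 2 ^ L →
      Psi P (6 * C₀ / 2 ^ L) z ≤ B * NB D L G P c (1 / 2 ^ b) := by
  have h3C : (1 : ℝ) ≤ 3 * C₀ := by linarith only [hC₀]
  obtain ⟨B, hB1, hB⟩ := jet_rec n D k₀ (3 * C₀) h3C
  refine ⟨(6 * C₀) ^ D * ((1 + 3 * C₀) ^ D * B ^ D), ?_, ?_⟩
  · have h1 : (1 : ℝ) ≤ (6 * C₀) ^ D := one_le_pow₀ (by linarith only [hC₀])
    have h2 : 1 ≤ B ^ D := one_le_pow₀ hB1
    have h3 : (1 : ℝ) ≤ (1 + 3 * C₀) ^ D := one_le_pow₀ (by linarith only [hC₀])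
    have h4 : 1 ≤ (1 + 3 * C₀) ^ D * B ^ D := by nlinarith only [h2, h3]
    nlinarith only [h1, h4]
  intro G hG P hP L b c hbL hsub z hz hzG
  have hC0 : (0 : ℝ) < C₀ := by linarith only [hC₀]
  set s : ℝ := 1 / 2 ^ b with hs
  have hs0 : 0 < s := by positivity
  set lm : ℝ := 2 ^ b / 2 ^ L with hlm
  have hlm0 : 0 < lm := by positivity
  have hlm1 : lm ≤ 1 := by
    rw [hlm, div_le_one (by positivity)]
    exact pow_le_pow_right₀ (by norm_num) hbL
  have hsl : s * lm = 1 / 2 ^ L := by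
    rw [hs, hlm]
    field_simp
  have hGs : RegG G c s k₀ (3 * C₀) := ⟨hG.deg, fun y hy i => hG.slope y (hsub hy) i⟩
  set G' := rsG G c 0 s with hG'
  set P' := rsQ P c 0 s with hP'
  have hcs : ∀ j, cs (fun _ => 0) 1 (gr G' (dN j P')) = s ^ j * cs c s (gr G (dN j P)) := by
    intro j
    have e1 : dN j P' = MvPolynomial.C (s ^ j) * rsQ (dN j P) c 0 s := dN_shf j P s _
    have e2 : gr G' (MvPolynomial.C (s ^ j) * rsQ (dN j P) c 0 s) =
        MvPolynomial.C (s ^ j) * shf (gr G (dN j P)) s c := by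
      rw [hG', ← gr_rs G (dN j P) c 0 hs0]
      unfold gr
      rw [map_mul, MvPolynomial.bind₁_C_right]
    rw [e1, e2]
    rw [← cs_shf (gr G (dN j P)) c hs0]
    have hpw : 0 < s ^ j := pow_pos hs0 j
    refine le_antisymm (SML.cs_le _ (mul_nonneg hpw.le (SML.cs_nonneg _ _ _)) fun y hy => ?_) ?_
    · rw [map_mul, MvPolynomial.eval_C, abs_mul, abs_of_pos hpw]
      exact mul_le_mul_of_nonneg_left (SML.le_cs zero_le_one _ hy) hpw.le
    · obtain ⟨y, hy, hy'⟩ := cs_attained (fun _ : Fin n => (0 : ℝ)) 1 zero_le_one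
        (shf (gr G (dN j P)) s c)
      rw [← hy']
      refine le_trans (le_of_eq ?_) (SML.le_cs zero_le_one _ hy)
      rw [map_mul, MvPolynomial.eval_C, abs_mul, abs_of_pos hpw]
  set g : ℝ := NB D L G P c s with hg
  have hterm : ∀ j, 0 ≤ (1 / 2 ^ L : ℝ) ^ j * cs c s (gr G (dN j P)) := fun j =>
    mul_nonneg (by positivity) (SML.cs_nonneg _ _ _)
  have hg0 : 0 ≤ g := Finset.sum_nonneg fun j _ => hterm j
  have hj : ∀ j, cs (fun _ => 0) 1 (gr G' (dN j P')) ≤ g / lm ^ j := by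
    intro j
    rw [le_div_iff₀ (pow_pos hlm0 j), hcs]
    have e1 : s ^ j * cs c s (gr G (dN j P)) * lm ^ j =
        (1 / 2 ^ L : ℝ) ^ j * cs c s (gr G (dN j P)) := by
      rw [← hsl, mul_pow]
      ring
    rw [e1]
    by_cases hjD : j < D + 1
    · exact Finset.single_le_sum (f := fun j => (1 / 2 ^ L : ℝ) ^ j * cs c s (gr G (dN j P)))
        (fun i _ => hterm i) (Finset.mem_range.mpr hjD)
    · have h1 : dN j P = 0 := dN_eq_zero D j P hP (by omega)
      have h2 : cs c s (gr G (dN j P)) ≤ 0 := by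
        refine SML.cs_le _ le_rfl fun y _ => ?_
        rw [h1]
        unfold gr
        simp
      have h3 : (1 / 2 ^ L : ℝ) ^ j * cs c s (gr G (dN j P)) ≤ 0 :=
        mul_nonpos_of_nonneg_of_nonpos (by positivity) h2
      linarith only [hg0, h3]
  -- the point in the units of the sub-cube
  set y' : Fin n → ℝ := fun i => (z (some i) - c i) / s with hy'
  have hy'c : y' ∈ cube (fun _ => 0) 1 := by
    intro i
    have h1 := hz i
    simp only at h1
    constructor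
    · exact div_nonneg (by linarith only [h1, h1.1]) hs0.le
    · rw [zero_add]
      simp only [hy']
      rw [div_le_one hs0]
      linarith only [h1, h1.2]
  have h1 := hB G' (fun _ => 0) lm lm (regG_rs hs0 hGs) hlm0 le_rfl hlm1 D le_rfl P' g
    ((totalDegree_rsQ_le P c 0 s).trans hP) hg0 hj y' hy'c
  have e1 : (fun o => pt c 0 o + s * gpt G' y' o) = gpt G (fun i => z (some i)) := by
    funext o
    cases o with
    | none =>
      change 0 + s * MvPolynomial.eval y' (rsG G c 0 s) = MvPolynomial.eval _ G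
      rw [eval_rsG]
      have e2 : (fun i => c i + s * y' i) = fun i => z (some i) := by
        funext i
        simp only [hy']
        field_simp
        ring
      rw [e2]
      field_simp
      ring
    | some i =>
      change c i + s * ((z (some i) - c i) / s) = z (some i)
      field_simp
      ring
  rw [PsiA_rsQ, e1] at h1
  have e2 : (fun o : Option (Fin n) => s * thk lm lm o) = fun _ => (1 / 2 ^ L : ℝ) := by
    funext o
    rw [← hsl]
    cases o <;> rfl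
  rw [e2, PsiA_const] at h1
  -- from the graph to the point
  have hu0 : (0 : ℝ) < 1 / 2 ^ L := by positivity
  have h2 := Psi_le_of_dist P (1 / 2 ^ L) (3 * C₀) hu0 (by linarith only [hC₀])
    (gpt G fun i => z (some i)) z (by
    intro o
    cases o with
    | none =>
      refine hzG.trans (le_of_eq ?_)
      ring
    | some i =>
      change |z (some i) - z (some i)| ≤ _
      rw [sub_self, abs_zero]
      positivity)
  have h3 := Psi_radius_le P (1 / 2 ^ L) (6 * C₀) (by linarith only [hC₀]) z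
  have e3 : (1 / 2 ^ L : ℝ) * (6 * C₀) = 6 * C₀ / 2 ^ L := by ring
  rw [e3] at h3
  have h4 : (6 * C₀) ^ P.totalDegree ≤ (6 * C₀) ^ D := pow_le_pow_right₀ (by linarith only [hC₀]) hP
  have h5 : (1 + 3 * C₀) ^ P.totalDegree ≤ (1 + 3 * C₀) ^ D :=
    pow_le_pow_right₀ (by linarith only [hC₀]) hP
  have h6 : Psi P (1 / 2 ^ L) z ≤ (1 + 3 * C₀) ^ D * (B ^ D * g) :=
    h2.trans (mul_le_mul h5 h1 (Psi_nonneg _ _ _) (by positivity))
  refine h3.trans ?_
  calc (6 * C₀) ^ P.totalDegree * Psi P (1 / 2 ^ L) z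
      ≤ (6 * C₀) ^ D * ((1 + 3 * C₀) ^ D * (B ^ D * g)) :=
        mul_le_mul h4 h6 (Psi_nonneg _ _ _) (by positivity)
    _ = (6 * C₀) ^ D * ((1 + 3 * C₀) ^ D * B ^ D) * g := by ring

/-- The norm `NB` of the leaf is bounded by the jets near the leaf. -/
theorem NB_le_TT (D L k₀ : ℕ) {C₀ r h : ℝ} (G : MvPolynomial (Fin n) ℝ)
    (hG : RegG G (fun _ => 0) 1 k₀ C₀) (hC₀ : 0 ≤ C₀) (hr : 0 ≤ r) (hh : 1 / 2 ^ L ≤ h)
    (P : MvPolynomial (Option (Fin n)) ℝ) (hP : P.totalDegree ≤ D) :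
    NB D L G P (fun _ => 0) 1 ≤ (D + 1) * (D + 1) ^ D * TT G r P h := by
  have hu0 : (0 : ℝ) < 1 / 2 ^ L := by positivity
  have hh0 : 0 < h := hu0.trans_le hh
  have hT0 := TT_nonneg hG hC₀ hr P hh0
  have hD1 : (1 : ℝ) ≤ D + 1 := by
    have : (0 : ℝ) ≤ D := Nat.cast_nonneg D
    linarith only
  have key : ∀ j ∈ Finset.range (D + 1), (1 / 2 ^ L : ℝ) ^ j *
      cs (fun _ => 0) 1 (gr G (dN j P)) ≤ (D + 1) ^ D * TT G r P h := by
    intro j hj
    obtain ⟨y, hy, hy'⟩ := cs_attained (fun _ : Fin n => (0 : ℝ)) 1 zero_le_one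
      (gr G (dN j P))
    rw [← hy', SML.eval_gr]
    have h1 := abs_eval_le_Psi (dN j P) (1 / 2 ^ L) (gpt G y)
    have h2 := dN_Psi_le D P hP hu0 le_rfl (gpt G y) j
    have h3 : PsiA P (thk (1 / 2 ^ L) (1 / 2 ^ L)) (gpt G y) ≤ TT G r P h := by
      rw [← Psi_thk]
      exact (Psi_mono P _ _ hu0.le hh _).trans (le_TT hG hC₀ hr P hh0 (nbh_gpt G hr hy))
    have h4 : (D : ℝ) ^ j ≤ (D + 1) ^ D := by
      have h5 : (D : ℝ) ^ j ≤ (D + 1) ^ j :=
        pow_le_pow_left₀ (Nat.cast_nonneg D) (by linarith only) j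
      have h6 : ((D : ℝ) + 1) ^ j ≤ (D + 1) ^ D :=
        pow_le_pow_right₀ hD1 (by
          have := Finset.mem_range.mp hj
          omega)
      exact h5.trans h6
    calc (1 / 2 ^ L : ℝ) ^ j * |MvPolynomial.eval (gpt G y) (dN j P)|
        ≤ (1 / 2 ^ L : ℝ) ^ j * Psi (dN j P) (1 / 2 ^ L) (gpt G y) :=
          mul_le_mul_of_nonneg_left h1 (by positivity)
      _ ≤ (D : ℝ) ^ j * PsiA P (thk (1 / 2 ^ L) (1 / 2 ^ L)) (gpt G y) := h2
      _ ≤ (D + 1) ^ D * TT G r P h :=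
          mul_le_mul h4 h3 (PsiA_nonneg _ _ _) (by positivity)
  unfold NB
  refine (Finset.sum_le_sum key).trans (le_of_eq ?_)
  rw [Finset.sum_const, Finset.card_range, nsmul_eq_mul]
  push_cast
  ring

end pure

section cells

variable {n a L : ℕ} {C₀ : ℝ} {k₀ : ℕ} {κ γ N : ℕ} {δ ε e₁ e₃ : ℝ} {Ω Λ Ξ Z : Type}
    [Fintype Ω] {p : Ω → ℝ} {lam : Ω → Λ} {x : Ω → Ξ} {T : Ξ → ℕ}
    {pos : Ξ → Option (Fin n) → ℕ} {A B : Λ → Option (Fin n) → ℝ} {zx : Ξ → Z}
    {zl : Λ → ℕ → Z} {cz : Z → Option (Fin n) → ℕ} {G : Z → MvPolynomial (Fin n) ℝ}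
    {e : Ξ → ℝ}

lemma scb_lt {b : ℕ} (hb : b ≤ L) (ξ : Ξ) (i : Fin n) : scb L pos b ξ i < 2 ^ b := by
  unfold scb posS
  rw [Nat.div_lt_iff_lt_mul (Nat.two_pow_pos _), ← pow_add, Nat.add_sub_cancel' hb]
  exact Nat.mod_lt _ (Nat.two_pow_pos _)

/-- The point is in its sub-cube. -/
lemma yb_mem {b : ℕ} (hb : b ≤ L) (ξ : Ξ) :
    yb L pos ξ ∈ cube (crb b (scb L pos b ξ)) (1 / 2 ^ b) := by
  intro i
  have h1 := Nat.div_add_mod (posS pos L ξ (some i)) (2 ^ (L - b))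
  have h2 := Nat.mod_lt (posS pos L ξ (some i)) (Nat.two_pow_pos (L - b))
  have hM : ((2 ^ L : ℕ) : ℝ) = 2 ^ (L - b) * 2 ^ b := by
    push_cast
    rw [← pow_add, Nat.sub_add_cancel hb]
  have h2b : (0 : ℝ) < 2 ^ b := by positivity
  have h2c : (0 : ℝ) < 2 ^ (L - b) := by positivity
  have h3 : (posS pos L ξ (some i) : ℝ) = 2 ^ (L - b) * (scb L pos b ξ i : ℝ) +
      ((posS pos L ξ (some i) % 2 ^ (L - b) : ℕ) : ℝ) := by
    unfold scb
    exact_mod_cast h1.symm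
  have h4 : (0 : ℝ) ≤ ((posS pos L ξ (some i) % 2 ^ (L - b) : ℕ) : ℝ) := Nat.cast_nonneg _
  have h5 : ((posS pos L ξ (some i) % 2 ^ (L - b) : ℕ) : ℝ) ≤ 2 ^ (L - b) := by
    exact_mod_cast h2.le
  have h6 : yb L pos ξ i = (scb L pos b ξ i : ℝ) / 2 ^ b +
      ((posS pos L ξ (some i) % 2 ^ (L - b) : ℕ) : ℝ) / (2 ^ (L - b) * 2 ^ b) := by
    unfold yb rp
    rw [h3, hM]
    field_simp
  have h7 : ((posS pos L ξ (some i) % 2 ^ (L - b) : ℕ) : ℝ) / (2 ^ (L - b) * 2 ^ b) ≤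
      1 / 2 ^ b := by
    rw [div_le_div_iff₀ (by positivity) h2b]
    nlinarith only [h2b, h5]
  have h8 : 0 ≤ ((posS pos L ξ (some i) % 2 ^ (L - b) : ℕ) : ℝ) / (2 ^ (L - b) * 2 ^ b) := by
    positivity
  rw [h6]
  unfold crb
  constructor <;> linarith

/-- The sub-cubes are in the unit cube. -/
lemma cube_scb_subset {b : ℕ} (hb : b ≤ L) (ξ : Ξ) :
    cube (crb b (scb L pos b ξ)) (1 / 2 ^ b) ⊆ cube (fun _ => 0) 1 := by
  intro y hy i
  have h1 := hy i
  have h2 := scb_lt (pos := pos) hb ξ i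
  have h2b : (0 : ℝ) < 2 ^ b := by positivity
  have h3 : (scb L pos b ξ i : ℝ) + 1 ≤ 2 ^ b := by exact_mod_cast h2
  unfold crb at h1
  have h4 : (scb L pos b ξ i : ℝ) / 2 ^ b + 1 / 2 ^ b ≤ 1 := by
    rw [← add_div, div_le_one h2b]
    exact h3
  constructor
  · have : 0 ≤ (scb L pos b ξ i : ℝ) / 2 ^ b := by positivity
    linarith only [h1, this, h1.1]
  · linarith only [h1, h4, h1.2]

/-- The number of sub-cubes. -/
lemma CH_scb_le (hS : StepF n a L C₀ p lam x T pos A B zx zl cz) {b : ℕ} (hb : b ≤ L) :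
    CH p (fun ω => (zx (x ω), scb L pos b (x ω))) (fun ω => zx (x ω)) ≤
      n * (b * Real.log 2) := by
  classical
  have hp := hS.leaf.isLaw
  have hp0 := hp.nonneg
  have h0 : CH p (fun ω => (zx (x ω), scb L pos b (x ω))) (fun ω => zx (x ω)) ≤
      CH p (fun ω => scb L pos b (x ω)) (fun ω => zx (x ω)) := by
    refine le_of_eq (CH_congr hp0 ?_ ?_ (fun _ _ _ _ h => h) (fun _ _ _ _ h => h))
    · intro ω ω' _ _ h
      simp only [Prod.mk.injEq] at h
      exact h.1.2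
    · intro ω ω' _ _ h
      simp only [Prod.mk.injEq] at h
      simp only [h.1, h.2]
  have h1 := CH_le_card hp0 hp.sum_one (fun ω => scb L pos b (x ω)) (fun ω => zx (x ω))
    (fun _ => Fintype.piFinset (fun _ : Fin n => Finset.range (2 ^ b))) (by
    intro ω _
    rw [Fintype.mem_piFinset]
    intro i
    rw [Finset.mem_range]
    exact scb_lt hb _ _)
  refine h0.trans (h1.trans (le_of_eq ?_))
  have h2 : (((Fintype.piFinset (fun _ : Fin n => Finset.range (2 ^ b))).card : ℕ) : ℝ) =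
      (2 : ℝ) ^ (b * n) := by
    rw [Fintype.card_piFinset]
    simp only [Finset.card_range, Finset.prod_const, Finset.card_univ, Fintype.card_fin]
    push_cast
    rw [← pow_mul]
  simp only [h2]
  rw [Ex_const hp.sum_one, Real.log_pow]
  push_cast
  ring

end cells

lemma Pe_le_sum {Ω : Type} [Fintype Ω] {p : Ω → ℝ} (hp : ∀ ω, 0 ≤ p ω) {A B₁ B₂ : Ω → Prop}
    (h : ∀ ω, 0 < p ω → A ω → B₁ ω ∨ B₂ ω) : Pe p A ≤ Pe p B₁ + Pe p B₂ := by
  classical
  unfold Pe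
  rw [← Finset.sum_add_distrib]
  refine Finset.sum_le_sum fun ω _ => ?_
  have h0 := hp ω
  by_cases hω : 0 < p ω
  · by_cases hA : A ω
    · rcases h ω hω hA with h1 | h1
      · rw [if_pos hA, if_pos h1]
        split_ifs <;> linarith
      · rw [if_pos hA, if_pos h1]
        split_ifs <;> linarith
    · rw [if_neg hA]
      split_ifs <;> linarith
  · have h1 : p ω = 0 := le_antisymm (not_lt.mp hω) h0
    rw [h1]
    simp

/-- **Row J3.** -/
theorem j3_thm : J3Stmt := by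
  classical
  intro n D C₀ hC₀
  refine ⟨4 * D * n + 1, by
    have : (0 : ℝ) ≤ 4 * D * n := by positivity
    linarith only [this], ?_⟩
  intro k₀
  obtain ⟨Cl, hCl, hlru⟩ := lru n D k₀ C₀ hC₀
  obtain ⟨Cf, hCf, hflu⟩ := flu n D k₀ C₀ hC₀
  obtain ⟨B₁, hB₁, hcell⟩ := cell_jet n D k₀ C₀ hC₀
  set K : ℝ := (D + 1) * (D + 1) ^ D * B₁ with hK
  have hD1 : (1 : ℝ) ≤ D + 1 := by
    have : (0 : ℝ) ≤ D := Nat.cast_nonneg D
    linarith
  have hDD : (1 : ℝ) ≤ (D + 1) * (D + 1) ^ D := by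
    have : (1 : ℝ) ≤ (D + 1) ^ D := one_le_pow₀ hD1
    nlinarith only [this]
  have hK1 : 1 ≤ K := by
    rw [hK]
    nlinarith only [hB₁, hDD]
  have hlK : 0 ≤ Real.log K := Real.log_nonneg hK1
  refine ⟨2 * (Cl + Cf + 2) + Real.log K + 1, by linarith, ?_⟩
  intro a L Ω Λ Ξ Z _ p lam x T pos A B zx zl cz G κ γ N b δ ε e₁ e₃ η e hH hb hη
  have hS := hH.step
  have hp := hS.leaf.isLaw
  have hp0 := hp.nonneg
  have hC0 : (0 : ℝ) < C₀ := by linarith only [hC₀]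
  set R : ℝ := RR n L κ γ N ε e₁ e₃ with hR
  obtain ⟨hR0, hR1, hR2⟩ := hH.le_RR
  rw [← hR] at hR0 hR1 hR2
  -- the trivial case
  rcases le_or_gt 1 η with hη1 | hη1
  · refine le_trans ?_ hη1
    rw [← hp.sum_one]
    unfold Pe
    refine Finset.sum_le_sum fun ω _ => ?_
    split_ifs
    exacts [le_rfl, hp0 ω]
  set h₁ : ℝ := 2 * (Cf + 1) * R / η with hh₁
  set h₂ : ℝ := 2 * (2 * D * (n * b) + (Cl + 1) * R) / η with hh₂
  have hh₁0 : 0 < h₁ := by positivity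
  have hh₂0 : 0 < h₂ := by positivity
  have E1 := hflu a L Ω Λ Ξ Z p lam x T pos A B zx zl cz G κ γ N δ ε e₁ e₃ h₁ e hH hh₁0
  have E2 := hlru a L Ω Λ Ξ Z (Z × (Fin n → ℕ)) p lam x T pos A B zx zl cz G κ γ N δ ε e₁ e₃ 1
    h₂ e (fun ξ => (zx ξ, scb L pos b ξ)) hH (fun ω ω' _ _ h => (Prod.ext_iff.mp h).1)
    one_pos le_rfl hh₂0
  have E1' : (Cf * R) / h₁ ≤ η / 2 := by
    rw [div_le_iff₀ hh₁0, hh₁]
    have e1 : η / 2 * (2 * (Cf + 1) * R / η) = (Cf + 1) * R := by field_simp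
    rw [e1]
    nlinarith only [hη, hR1, hη1]
  have E2' : (2 * D * CH p (fun ω => (zx (x ω), scb L pos b (x ω))) (fun ω => zx (x ω)) +
      Cl * R) / h₂ ≤ η / 2 := by
    rw [div_le_iff₀ hh₂0, hh₂]
    have e1 : η / 2 * (2 * (2 * D * (n * b) + (Cl + 1) * R) / η) =
        2 * D * (n * b) + (Cl + 1) * R := by field_simp
    rw [e1]
    have h1 := CH_scb_le hS hb
    have h2 : (0 : ℝ) ≤ 2 * D := by positivity
    have h3 := mul_le_mul_of_nonneg_left h1 h2
    have hl : Real.log 2 ≤ 1 := by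
      have := Real.log_two_lt_d9
      linarith only [hη, hη1, this]
    have h4 : 2 * D * (n * (b * Real.log 2)) ≤ 2 * D * (n * b) := by
      refine mul_le_mul_of_nonneg_left ?_ h2
      refine mul_le_mul_of_nonneg_left ?_ (Nat.cast_nonneg n)
      have h5 : (0 : ℝ) ≤ b := Nat.cast_nonneg b
      nlinarith only [hl]
    nlinarith only [hη, hR1, hη1, h3, h4]
  refine (Pe_le_sum hp0 ?_).trans ((add_le_add (E1.trans E1') (E2.trans E2')).trans
    (le_of_eq (by ring)))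
  intro ω hω hbad
  by_contra hcon
  push Not at hcon
  obtain ⟨hn1, hn2⟩ := hcon
  obtain ⟨P, hP0, hPD, hPlt⟩ := hbad
  -- the polynomial in the units of the long window
  obtain ⟨F, hF1, hF2, hF3⟩ := exists_rsQ P (fun i => crz cz a (zx (x ω)) (some i))
    (crz cz a (zx (x ω)) none) (s := 1 / 2 ^ a) (by positivity)
  unfold rsQ at hF1
  rw [pt_eta] at hF1
  have hF0 := hF3 hP0
  have hFD : F.totalDegree ≤ D := hF2.trans hPD
  set FV : MvPolynomial.restrictTotalDegree (Option (Fin n)) ℝ D :=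
    ⟨F, (MvPolynomial.mem_restrictTotalDegree _ _ _).mpr hFD⟩ with hFV
  have hFV0 : FV ≠ 0 := fun h => hF0 (congrArg Subtype.val h)
  have i1 := hn1 FV hFV0
  have i2 := hn2 FV hFV0
  -- from the leaf to the points
  have i3 : NB D L (G (zx (x ω))) P (fun _ => 0) 1 ≤
      (D + 1) * (D + 1) ^ D * TZ a L C₀ cz G F (zx (x ω)) := by
    unfold TZ
    rw [hF1]
    refine NB_le_TT D L k₀ (G (zx (x ω))) (hH.reg ω hω) (by linarith only [hC₀, hη, hη1]) (by positivity) ?_ P hPD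
    exact div_le_div_of_nonneg_right (by linarith only [hC₀, hη, hη1]) (by positivity)
  -- from the points to the sub-cube
  have i4 : NZ D p x (fun ξ => (zx ξ, scb L pos b ξ)) (2 ^ (a + L)) pos (6 * C₀ / 2 ^ (a + L)) 1
      ((zx (x ω), scb L pos b (x ω))) FV ≤
      B₁ * NB D L (G (zx (x ω))) P (crb b (scb L pos b (x ω))) (1 / 2 ^ b) := by
    obtain ⟨ω', hω', hz, he⟩ := NZ_attained (D := D) (x := x)
      (zx := fun ξ => (zx ξ, scb L pos b ξ)) (M := 2 ^ (a + L)) (pos := pos)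
      (h := 6 * C₀ / 2 ^ (a + L)) one_ne_zero hω FV
    have hz1 : zx (x ω') = zx (x ω) := (Prod.ext_iff.mp hz).1
    have hz2 : scb L pos b (x ω') = scb L pos b (x ω) := (Prod.ext_iff.mp hz).2
    refine le_trans (le_of_eq he) ?_
    rw [PsiC_one]
    change Psi F _ _ ≤ _
    rw [← hH.Psi_eq F (6 * C₀) ω', hz1, hF1]
    have hnb := hH.nbh hω'
    rw [hz1] at hnb
    refine hcell (G (zx (x ω))) (hH.reg ω hω) P hPD L b _ hb (cube_scb_subset hb _) _ ?_ hnb.2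
    rw [← hz2]
    exact yb_mem hb (x ω')
  -- conclusion
  set S₁ := NB D L (G (zx (x ω))) P (crb b (scb L pos b (x ω))) (1 / 2 ^ b) with hS₁
  have hS₁0 : 0 ≤ S₁ := Finset.sum_nonneg fun j _ =>
    mul_nonneg (by positivity) (SML.cs_nonneg _ _ _)
  have i5 : NB D L (G (zx (x ω))) P (fun _ => 0) 1 ≤
      K * (Real.exp h₁ * Real.exp h₂) * S₁ := by
    have j1 : NZ D p x zx (2 ^ (a + L)) pos (6 * C₀ / 2 ^ (a + L)) 1 (zx (x ω)) FV ≤
        Real.exp h₂ * (B₁ * S₁) :=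
      i2.trans (mul_le_mul_of_nonneg_left i4 (Real.exp_pos _).le)
    have j2 : TZ a L C₀ cz G F (zx (x ω)) ≤ Real.exp h₁ * (Real.exp h₂ * (B₁ * S₁)) :=
      i1.trans (mul_le_mul_of_nonneg_left j1 (Real.exp_pos _).le)
    refine i3.trans ((mul_le_mul_of_nonneg_left j2 (by linarith only [hDD, hη, hη1])).trans (le_of_eq ?_))
    rw [hK]
    ring
  have i6 : K * (Real.exp h₁ * Real.exp h₂) ≤
      Real.exp (((4 * D * n + 1) * b + (2 * (Cl + Cf + 2) + Real.log K + 1) * R) / η) := by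
    have j1 : K = Real.exp (Real.log K) := (Real.exp_log (by linarith only [hK1, hη, hη1])).symm
    rw [← Real.exp_add]
    nth_rewrite 1 [j1]
    rw [← Real.exp_add]
    refine Real.exp_le_exp.mpr ?_
    rw [le_div_iff₀ hη]
    have e1 : (Real.log K + (h₁ + h₂)) * η = Real.log K * η +
        (2 * (Cf + 1) * R + 2 * (2 * D * (n * b) + (Cl + 1) * R)) := by
      rw [hh₁, hh₂]
      field_simp
    rw [e1]
    have j2 : Real.log K * η ≤ Real.log K * R := mul_le_mul_of_nonneg_left (by linarith only [hR1, hη1]) hlK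
    have hb0 : (0 : ℝ) ≤ b := Nat.cast_nonneg b
    nlinarith only [hη, hR1, hη1, j2]
  have i7 := i5.trans (mul_le_mul_of_nonneg_right i6 hS₁0)
  exact absurd hPlt (not_lt.mpr i7)

end Pool.KJ74
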