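import Pool.Agent.H74.KJ.TRZ

/-!
# Jets of jets, jets near a leaf

Pure lemmas for (3.0) of LEMMA J.
-/

set_option autoImplicit false

namespace Pool.KJ74

open Finset MvPolynomial Pool.KAL Pool.KS3 Pool.KS3.SML Pool.KST

section general

variable {σ : Type}

lemma wgt_const (ρ : ℝ) (α : σ →₀ ℕ) : wgt (fun _ => ρ) α = ρ ^ α.degree := by
  unfold wgt Finsupp.prod
  rw [Finset.prod_pow_eq_pow_sum]
  rfl

variable [Finite σ]

/-- `Psi` in terms of the Taylor coefficients. -/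
lemma Psi_eq_jet (P : MvPolynomial σ ℝ) (D : ℕ) (hD : P.totalDegree ≤ D) {ρ : ℝ} (hρ : 0 ≤ ρ)
    (x : σ → ℝ) :
    Psi P ρ x = ∑ α ∈ expBox σ D, ρ ^ α.degree * |eval x (jet P 1 α)| := by
  rw [← PsiA_const, PsiA_eq_box P D hD]
  refine Finset.sum_congr rfl fun α _ => ?_
  rw [abs_mul, wgt_const, coeff_shf, abs_of_nonneg (pow_nonneg hρ _)]

/-- One Taylor coefficient. -/
lemma jet_le (P : MvPolynomial σ ℝ) (D : ℕ) (hD : P.totalDegree ≤ D) {ρ : ℝ} (hρ : 0 ≤ ρ)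
    (x : σ → ℝ) (β : σ →₀ ℕ) : ρ ^ β.degree * |eval x (jet P 1 β)| ≤ Psi P ρ x := by
  by_cases hβ : β ∈ expBox σ D
  · rw [Psi_eq_jet P D hD hρ]
    exact Finset.single_le_sum (f := fun α : σ →₀ ℕ => ρ ^ α.degree * |eval x (jet P 1 α)|)
      (fun α _ => mul_nonneg (pow_nonneg hρ _) (abs_nonneg _)) hβ
  · have h1 : coeff β (shf P 1 x) = 0 := by
      by_contra h
      have h2 : β ∈ (shf P 1 x).support := mem_support_iff.mpr h
      exact hβ (support_subset_expBox _ D ((totalDegree_shf_le P 1 x).trans hD) h2)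
    rw [← coeff_shf, h1, abs_zero, mul_zero]
    exact Psi_nonneg _ _ _

/-- Small radius against large radius. -/
lemma Psi_small (P : MvPolynomial σ ℝ) {h ρ : ℝ} (hh : 0 < h) (hρ : h ≤ ρ) (x : σ → ℝ) :
    Psi P h x ≤ |eval x P| + h / ρ * Psi P ρ x := by
  classical
  have hρ0 : 0 < ρ := hh.trans_le hρ
  set D := P.totalDegree with hD
  rw [Psi_eq_jet P D le_rfl hh.le, Psi_eq_jet P D le_rfl hρ0.le, Finset.mul_sum]
  have h0 : (0 : σ →₀ ℕ) ∈ expBox σ D := by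
    rw [mem_expBox]
    simp
  have hj0 : |eval x (jet P 1 (0 : σ →₀ ℕ))| = |eval x P| := by
    rw [← coeff_shf]
    congr 1
    have h1 : coeff 0 (shf P 1 x) = eval (fun _ => 0) (shf P 1 x) := by
      have h2 := congrFun (constantCoeff_eq (R := ℝ) (σ := σ)) (shf P 1 x)
      rw [← h2, ← eval_zero]
      rfl
    rw [h1, eval_shf]
    congr 2
    funext i
    ring
  rw [← Finset.add_sum_erase _ _ h0, ← Finset.add_sum_erase (expBox σ D) (fun α : σ →₀ ℕ =>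
    h / ρ * (ρ ^ α.degree * |eval x (jet P 1 α)|)) h0]
  have h1 : ∑ α ∈ (expBox σ D).erase 0, h ^ α.degree * |eval x (jet P 1 α)| ≤
      ∑ α ∈ (expBox σ D).erase 0, h / ρ * (ρ ^ α.degree * |eval x (jet P 1 α)|) := by
    refine Finset.sum_le_sum fun α hα => ?_
    rw [← mul_assoc]
    refine mul_le_mul_of_nonneg_right ?_ (abs_nonneg _)
    have hα0 : α ≠ 0 := (Finset.mem_erase.mp hα).1
    obtain ⟨d, hd⟩ : ∃ d, α.degree = d + 1 := by
      refine ⟨α.degree - 1, ?_⟩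
      have : α.degree ≠ 0 := fun h => hα0 ((Finsupp.degree_eq_zero_iff α).mp h)
      omega
    rw [hd]
    have h2 : h ^ d ≤ ρ ^ d := pow_le_pow_left₀ hh.le hρ d
    calc h ^ (d + 1) = h * h ^ d := by ring
      _ ≤ h * ρ ^ d := mul_le_mul_of_nonneg_left h2 hh.le
      _ = h / ρ * ρ ^ (d + 1) := by
          field_simp
          ring
  have h2 : h ^ (0 : σ →₀ ℕ).degree * |eval x (jet P 1 0)| = |eval x P| := by
    rw [hj0]
    simp
  rw [h2]
  have h3 : 0 ≤ h / ρ * (ρ ^ (0 : σ →₀ ℕ).degree * |eval x (jet P 1 0)|) := by positivity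
  linarith

/-- The jets of a Taylor coefficient. -/
theorem jet_jet (D : ℕ) : ∃ K : ℝ, 1 ≤ K ∧ ∀ (P : MvPolynomial σ ℝ), P.totalDegree ≤ D →
    ∀ (h ρ : ℝ), 0 < h → h ≤ ρ → ∀ (x : σ → ℝ) (β : σ →₀ ℕ),
      ρ ^ β.degree * Psi (jet P 1 β) h x ≤ K * Psi P ρ x := by
  obtain ⟨K, hK, hsup⟩ := exists_Psi_le_sup σ D
  refine ⟨K * 2 ^ D, ?_, ?_⟩
  · have : (1 : ℝ) ≤ 2 ^ D := one_le_pow₀ (by norm_num)
    nlinarith
  intro P hP h ρ hh hρ x β
  have hρ0 : 0 < ρ := hh.trans_le hρ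
  have hpw : 0 < ρ ^ β.degree := pow_pos hρ0 _
  have h1 := hsup (jet P 1 β) h x (2 ^ D * Psi P ρ x / ρ ^ β.degree)
    ((totalDegree_jet_le P 1 β).trans hP) hh.le (by
      intro y hy
      rw [le_div_iff₀ hpw, mul_comm]
      refine (jet_le P D hP hρ0.le y β).trans ?_
      refine (Psi_le_of_near P ρ hρ0.le x y fun i => (hy i).trans hρ).trans ?_
      refine mul_le_mul_of_nonneg_right ?_ (Psi_nonneg _ _ _)
      exact pow_le_pow_right₀ (by norm_num) hP)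
  calc ρ ^ β.degree * Psi (jet P 1 β) h x
      ≤ ρ ^ β.degree * (K * (2 ^ D * Psi P ρ x / ρ ^ β.degree)) :=
        mul_le_mul_of_nonneg_left h1 hpw.le
    _ = K * 2 ^ D * Psi P ρ x := by field_simp

end general

section leaf

variable {n : ℕ}

lemma shf_add' {σ : Type} (P Q : MvPolynomial σ ℝ) (h : ℝ) (x : σ → ℝ) :
    shf (P + Q) h x = shf P h x + shf Q h x := by
  unfold shf
  rw [map_add]

/-- Derivatives and rescaling. -/
lemma dN_shf (j : ℕ) (P : MvPolynomial (Option (Fin n)) ℝ) (s : ℝ) (c : Option (Fin n) → ℝ) :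
    dN j (shf P s c) = C (s ^ j) * shf (dN j P) s c := by
  induction j with
  | zero => rw [dN_zero, dN_zero, pow_zero, C_1, one_mul]
  | succ j ih =>
    rw [dN_succ', ih, pderiv_C_mul, pderiv_shf, dN_succ', pow_succ, C_mul]
    ring

/-- `rho ^ j` times the `j`-th passive derivative. -/
lemma dN_PsiA_le (D : ℕ) (P : MvPolynomial (Option (Fin n)) ℝ) (hP : P.totalDegree ≤ D)
    {h ρ : ℝ} (hh : 0 < h) (hρ : 0 < ρ) (x : Option (Fin n) → ℝ) (j : ℕ) :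
    ρ ^ j * PsiA (dN j P) (thk h ρ) x ≤ (D : ℝ) ^ j * PsiA P (thk h ρ) x := by
  induction j with
  | zero => rw [dN_zero, pow_zero, pow_zero]
  | succ j ih =>
    have h1 := jet_pderiv_le (dN j P) ((totalDegree_dN_le j P).trans hP) h ρ ρ hh hρ le_rfl x
    rw [← dN_succ'] at h1
    have h2 := mul_le_mul_of_nonneg_left h1 (pow_nonneg hρ.le j)
    have h3 := mul_le_mul_of_nonneg_left ih (Nat.cast_nonneg (α := ℝ) D)
    calc ρ ^ (j + 1) * PsiA (dN (j + 1) P) (thk h ρ) x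
        = ρ ^ j * (ρ * PsiA (dN (j + 1) P) (thk h ρ) x) := by ring
      _ ≤ ρ ^ j * (D * PsiA (dN j P) (thk h ρ) x) := h2
      _ = D * (ρ ^ j * PsiA (dN j P) (thk h ρ) x) := by ring
      _ ≤ D * ((D : ℝ) ^ j * PsiA P (thk h ρ) x) := h3
      _ = (D : ℝ) ^ (j + 1) * PsiA P (thk h ρ) x := by ring

lemma thk_self (h : ℝ) : (thk h h : Option (Fin n) → ℝ) = fun _ => h := by
  funext o
  cases o <;> rfl

lemma Psi_thk (P : MvPolynomial (Option (Fin n)) ℝ) (h : ℝ) (x : Option (Fin n) → ℝ) :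
    Psi P h x = PsiA P (thk h h) x := by
  rw [thk_self, PsiA_const]

/-- The same with jets of small thickness. -/
lemma dN_Psi_le (D : ℕ) (P : MvPolynomial (Option (Fin n)) ℝ) (hP : P.totalDegree ≤ D)
    {h ρ : ℝ} (hh : 0 < h) (hρ : h ≤ ρ) (x : Option (Fin n) → ℝ) (j : ℕ) :
    ρ ^ j * Psi (dN j P) h x ≤ (D : ℝ) ^ j * PsiA P (thk h ρ) x := by
  have hρ0 : 0 < ρ := hh.trans_le hρ
  refine le_trans ?_ (dN_PsiA_le D P hP hh hρ0 x j)
  refine mul_le_mul_of_nonneg_left ?_ (pow_nonneg hρ0.le j)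
  rw [Psi_thk]
  exact PsiA_mono _ _ _ (thk_pos hh hh) (thk_le le_rfl hρ) x

/-- The jets near the leaf are dominated by the passive derivatives on the leaf. -/
theorem leaf_jet (n D k₀ : ℕ) (C₀ : ℝ) (hC₀ : 1 ≤ C₀) : ∃ B : ℝ, 1 ≤ B ∧
    ∀ (G : MvPolynomial (Fin n) ℝ), RegG G (fun _ => 0) 1 k₀ C₀ →
    ∀ (R : MvPolynomial (Option (Fin n)) ℝ), R.totalDegree ≤ D → ∀ (r ρ h : ℝ), 0 ≤ r → 0 < h →
      r ≤ ρ → 0 < ρ → ρ ≤ 1 → ∀ z, Nbh G r z →
      Psi R ρ z ≤ B * ∑ j ∈ Finset.range (D + 1), ρ ^ j * TT G r (dN j R) h := by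
  obtain ⟨B, hB1, hB⟩ := jet_rec n D k₀ C₀ hC₀
  refine ⟨2 ^ D * B ^ D, ?_, ?_⟩
  · have h1 : (1 : ℝ) ≤ 2 ^ D := one_le_pow₀ (by norm_num)
    have h2 : 1 ≤ B ^ D := one_le_pow₀ hB1
    nlinarith
  intro G hG R hR r ρ h hr hh hrρ hρ0 hρ1 z hz
  set g : ℝ := ∑ j ∈ Finset.range (D + 1), ρ ^ j * TT G r (dN j R) h with hg
  have hC0 : (0 : ℝ) ≤ C₀ := by linarith
  have hT0 : ∀ j, 0 ≤ TT G r (dN j R) h := fun j => TT_nonneg hG hC0 hr _ hh
  have hg0 : 0 ≤ g := Finset.sum_nonneg fun j _ => mul_nonneg (pow_nonneg hρ0.le _) (hT0 j)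
  have hcs : ∀ j, cs (fun _ => 0) 1 (gr G (dN j R)) ≤ TT G r (dN j R) h := by
    intro j
    refine cs_le _ (hT0 j) fun y hy => ?_
    rw [SML.eval_gr]
    exact (abs_eval_le_Psi _ _ _).trans (le_TT hG hC0 hr _ hh (nbh_gpt G hr hy))
  have hj : ∀ j, cs (fun _ => 0) 1 (gr G (dN j R)) ≤ g / ρ ^ j := by
    intro j
    rw [le_div_iff₀ (pow_pos hρ0 j)]
    by_cases hjD : j < D + 1
    · have h1 : ρ ^ j * TT G r (dN j R) h ≤ g :=
        Finset.single_le_sum (f := fun j => ρ ^ j * TT G r (dN j R) h)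
          (fun i _ => mul_nonneg (pow_nonneg hρ0.le _) (hT0 i)) (Finset.mem_range.mpr hjD)
      refine le_trans ?_ h1
      rw [mul_comm]
      exact mul_le_mul_of_nonneg_left (hcs j) (pow_nonneg hρ0.le _)
    · have h1 : dN j R = 0 := dN_eq_zero D j R hR (by omega)
      have h2 : cs (fun _ => 0) 1 (gr G (dN j R)) ≤ 0 := by
        refine cs_le _ le_rfl fun y _ => ?_
        rw [h1]
        unfold gr
        simp
      have h3 : cs (fun _ => 0) 1 (gr G (dN j R)) * ρ ^ j ≤ 0 :=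
        mul_nonpos_of_nonpos_of_nonneg h2 (pow_nonneg hρ0.le _)
      linarith
  have h1 := hB G (fun _ => 0) ρ ρ hG hρ0 le_rfl hρ1 D le_rfl R g hR hg0 hj
    (fun i => z (some i)) hz.1
  rw [thk_self, PsiA_const] at h1
  have h2 := Psi_le_of_near R ρ hρ0.le (gpt G fun i => z (some i)) z (by
    intro o
    cases o with
    | none => exact hz.2.trans hrρ
    | some i =>
      change |z (some i) - z (some i)| ≤ ρ
      rw [sub_self, abs_zero]
      exact hρ0.le)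
  refine h2.trans ?_
  have h3 : (2 : ℝ) ^ R.totalDegree ≤ 2 ^ D := pow_le_pow_right₀ (by norm_num) hR
  have h4 : 0 ≤ B ^ D * g := mul_nonneg (pow_nonneg (by linarith) _) hg0
  calc 2 ^ R.totalDegree * Psi R ρ (gpt G fun i => z (some i))
      ≤ 2 ^ D * (B ^ D * g) := mul_le_mul h3 h1 (Psi_nonneg _ _ _) (by positivity)
    _ = 2 ^ D * B ^ D * g := by ring

end leaf

end Pool.KJ74
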