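import Pool.Agent.H72.KJ.J5S
import Pool.Agent.H50.LJ.Gap
import Pool.Agent.H74.KJ.PUR

/-!
# LEMMA J, row J5: grid points on a line with a small Taylor coefficient and a large next one
-/

set_option autoImplicit false

namespace Pool.KJ74

open Finset Real
open Pool.Agent.H49.Ent Pool.Agent.H32.Dense Pool.STK Pool.KAF Pool.KAL Pool.KST Pool.KS3 Pool.KJ

variable {n : ℕ}

lemma tc_one (b : ℕ) (h : MvPolynomial (Fin n) ℝ) (y : Fin n → ℝ) (β : Fin n →₀ ℕ) :
    tc b h y β = (1 / 2 ^ b) ^ β.degree * MvPolynomial.coeff β (shA h (fun _ => 1) y) := by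
  unfold tc
  rw [coeff_shA, coeff_shA h (fun _ => 1) y β, wgt_const, wgt_const, one_pow, one_mul]

/-- **(SLC)** -/
theorem slc_thm : SLCStmt := by
  classical
  intro n k
  refine ⟨4 * k + 1, by
    have : (0 : ℝ) ≤ k := Nat.cast_nonneg k
    linarith, ?_⟩
  intro h L b β i A B u E hk hb hA hB hE
  obtain ⟨q, hq1, hq2, hq3⟩ := Pool.LJ.exists_q h k hk β i (fun l => (u l : ℝ) / 2 ^ L)
  obtain ⟨s, hs⟩ : ∃ s : ℝ, s = 2 ^ b := ⟨_, rfl⟩
  have hs0 : 0 < s := by rw [hs]; positivity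
  have hupd : ∀ t : ℕ, Function.update (fun l => (u l : ℝ) / 2 ^ L) i ((t : ℝ) / 2 ^ L) =
      fun l => ((Function.update u i t l : ℕ) : ℝ) / 2 ^ L := by
    intro t
    funext l
    by_cases hl : l = i
    · subst hl
      simp
    · simp [hl]
  have hcnt := Pool.LJ.cnt1 q k hq1 (A * s ^ β.degree) (B * s ^ (β.degree + 1)) (by positivity)
    (by positivity) (2 ^ L) (by positivity) E ?_
  · refine hcnt.trans ?_
    have e1 : 2 * (A * s ^ β.degree) * ((2 ^ L : ℕ) : ℝ) / (B * s ^ (β.degree + 1)) =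
        2 * (A / B * 2 ^ (L - b)) := by
      have e2 : (((2 ^ L : ℕ) : ℝ)) = 2 ^ (L - b) * s := by
        rw [hs, ← pow_add, Nat.sub_add_cancel hb]
        push_cast
        rfl
      rw [e2, pow_succ]
      field_simp
    rw [e1]
    have h0 : 0 ≤ A / B * 2 ^ (L - b) := by positivity
    have hk0 : (0 : ℝ) ≤ k := Nat.cast_nonneg k
    have h1 : 0 ≤ (k : ℝ) * (A / B * 2 ^ (L - b)) := mul_nonneg hk0 h0
    nlinarith
  · intro t ht
    obtain ⟨h1, h2⟩ := hE t ht
    rw [tc_one] at h1 h2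
    have hc : ∀ m : ℕ, 0 < (1 / 2 ^ b : ℝ) ^ m := fun m => by positivity
    have hcs : ∀ m : ℕ, (1 / 2 ^ b : ℝ) ^ m * s ^ m = 1 := by
      intro m
      rw [hs, ← mul_pow, one_div, inv_mul_cancel₀ (by positivity), one_pow]
    have ht' : ((t : ℝ) / ((2 ^ L : ℕ) : ℝ)) = (t : ℝ) / 2 ^ L := by
      push_cast
      rfl
    constructor
    · rw [hq2, ht', hupd]
      rw [abs_mul, abs_of_pos (hc _)] at h1
      have h3 := mul_le_mul_of_nonneg_right h1 (pow_pos hs0 β.degree).le
      refine le_trans (le_of_eq ?_) h3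
      calc _ = ((1 / 2 ^ b : ℝ) ^ β.degree * s ^ β.degree) *
          |MvPolynomial.coeff β (shA h (fun _ => 1)
            (fun l => ((Function.update u i t l : ℕ) : ℝ) / 2 ^ L))| := by rw [hcs, one_mul]
        _ = _ := by ring
    · rw [hq3, ht', hupd, abs_mul]
      rw [abs_mul, abs_of_pos (hc _), map_add, Finsupp.degree_single] at h2
      have h3 := mul_le_mul_of_nonneg_right h2 (pow_pos hs0 (β.degree + 1)).le
      have h4 : (1 : ℝ) ≤ |(β i : ℝ) + 1| := by
        have : (0 : ℝ) ≤ β i := Nat.cast_nonneg _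
        rw [abs_of_pos (by linarith)]
        linarith
      refine h3.trans (le_trans (le_of_eq ?_) (le_mul_of_one_le_left (abs_nonneg _) h4))
      calc _ = ((1 / 2 ^ b : ℝ) ^ (β.degree + 1) * s ^ (β.degree + 1)) *
          |MvPolynomial.coeff (β + Finsupp.single i 1) (shA h (fun _ => 1)
            (fun l => ((Function.update u i t l : ℕ) : ℝ) / 2 ^ L))| := by ring
        _ = _ := by rw [hcs, one_mul]

end Pool.KJ74
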