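import Pool.Agent.H74.KJ.LRU

/-!
# Filling a leaf

The polynomial is a function of the label. Its jets at any point near the leaf over the leaf cube
are bounded, in the mean, by the jets at the random point of the leaf.
-/

set_option autoImplicit false

namespace Pool.KS3

open Finset Real Module
open Pool.Agent.H49.Ent Pool.Agent.H32.Dense Pool.STK Pool.KAF Pool.KAL Pool.KST

/-- Points over the unit cube at distance at most `r` from the graph. -/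
def Nbh {n : ℕ} (G : MvPolynomial (Fin n) ℝ) (r : ℝ) (z : Option (Fin n) → ℝ) : Prop :=
  (fun i => z (some i)) ∈ cube (fun _ => 0) 1 ∧
    |z none - MvPolynomial.eval (fun i => z (some i)) G| ≤ r

/-- The random point of the leaf is near the graph. -/
lemma StepH.nbh {n a L : ℕ} {C₀ : ℝ} {k₀ : ℕ} {κ γ N : ℕ} {δ ε e₁ e₃ : ℝ} {Ω Λ Ξ Z : Type}
    [Fintype Ω] {p : Ω → ℝ} {lam : Ω → Λ} {x : Ω → Ξ} {T : Ξ → ℕ}
    {pos : Ξ → Option (Fin n) → ℕ} {A B : Λ → Option (Fin n) → ℝ} {zx : Ξ → Z}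
    {zl : Λ → ℕ → Z} {cz : Z → Option (Fin n) → ℕ} {G : Z → MvPolynomial (Fin n) ℝ}
    {e : Ξ → ℝ} (h : StepH n a L C₀ k₀ κ γ N δ ε e₁ e₃ p lam x T pos A B zx zl cz G e) {ω : Ω}
    (hω : 0 < p ω) : Nbh (G (zx (x ω))) (3 * C₀ / 2 ^ L) (rp (2 ^ L) (posS pos L) (x ω)) := by
  refine ⟨fun i => ?_, h.gr ω hω⟩
  have hM : ((2 ^ L : ℕ) : ℝ) = 2 ^ L := by push_cast; rfl
  have h2L : (0 : ℝ) < 2 ^ L := by positivity
  have h1 : posS pos L (x ω) (some i) < 2 ^ L := Nat.mod_lt _ (Nat.two_pow_pos L)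
  simp only [rp]
  rw [hM]
  refine ⟨by positivity, ?_⟩
  rw [zero_add, div_le_one h2L]
  have : ((posS pos L (x ω) (some i) : ℕ) : ℝ) ≤ ((2 ^ L : ℕ) : ℝ) := by exact_mod_cast h1.le
  rwa [hM] at this

/-- Row FLZ. -/
theorem flz (n D k₀ : ℕ) (C₀ : ℝ) (hC₀ : 1 ≤ C₀) : ∃ C : ℝ, 0 ≤ C ∧
    ∀ (a L : ℕ) (Ω Λ Ξ Z : Type) [Fintype Ω] (p : Ω → ℝ) (lam : Ω → Λ)
      (x : Ω → Ξ) (T : Ξ → ℕ) (pos : Ξ → Option (Fin n) → ℕ) (A B : Λ → Option (Fin n) → ℝ)
      (zx : Ξ → Z) (zl : Λ → ℕ → Z) (cz : Z → Option (Fin n) → ℕ)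
      (G : Z → MvPolynomial (Fin n) ℝ) (κ γ N : ℕ) (δ ε e₁ e₃ : ℝ) (e : Ξ → ℝ)
      (R : Z → MvPolynomial (Option (Fin n)) ℝ) (S : Z → ℝ),
      StepH n a L C₀ k₀ κ γ N δ ε e₁ e₃ p lam x T pos A B zx zl cz G e →
      (∀ ω, 0 < p ω → R (zx (x ω)) ≠ 0 ∧ (R (zx (x ω))).totalDegree ≤ D) →
      (∀ ω, 0 < p ω → 0 < S (zx (x ω)) ∧ ∃ z, Nbh (G (zx (x ω))) (3 * C₀ / 2 ^ L) z ∧
        S (zx (x ω)) ≤ Psi (R (zx (x ω))) (6 * C₀ / 2 ^ L) z) →
      Ex p (fun ω => Real.log (S (zx (x ω)))) ≤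
        Ex p (fun ω => Real.log (Psi (R (zx (x ω))) (6 * C₀ / 2 ^ L)
          (rp (2 ^ L) (posS pos L) (x ω)))) + C * RR n L κ γ N ε e₁ e₃ := by
  classical
  have h3C : (1 : ℝ) ≤ 3 * C₀ := by linarith
  have hn0 : (0 : ℝ) ≤ n := Nat.cast_nonneg n
  set C₅ : ℝ := (3 * n + 12) * C₀ with hC₅
  have h5C : 6 * C₀ ≤ C₅ := by
    rw [hC₅]
    nlinarith
  have h5C1 : 1 ≤ C₅ := by linarith
  obtain ⟨κ', Cf, hCf, hfil⟩ := fil n D k₀ C₅ h5C1
  obtain ⟨Cu, hCu, hful⟩ := fulh_thm n (3 * C₀) h3C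
  have hκ' : (0 : ℝ) ≤ κ' := Nat.cast_nonneg κ'
  set M₅ : ℝ := C₅ / (6 * C₀) with hM₅
  have hM₅1 : 1 ≤ M₅ := by
    rw [hM₅, one_le_div (by positivity)]
    exact h5C
  have hlM5 : 0 ≤ Real.log M₅ := Real.log_nonneg hM₅1
  refine ⟨D * Real.log M₅ + κ' * (n + Cu + Cf), by positivity, ?_⟩
  intro a L Ω Λ Ξ Z _ p lam x T pos A B zx zl cz G κ γ N δ ε e₁ e₃ e R S hH hR hS
  have hF := hH.step
  have hp := hF.leaf.isLaw
  have hp0 := hp.nonneg
  have hSm := hF.small hC₀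
  have hC0 : (0 : ℝ) < C₀ := by linarith
  have h2L : (0 : ℝ) < 2 ^ L := by positivity
  have h2L1 : (1 : ℝ) ≤ 2 ^ L := one_le_pow₀ (by norm_num)
  have hM : ((2 ^ L : ℕ) : ℝ) = 2 ^ L := by push_cast; rfl
  set h₀ : ℝ := 6 * C₀ / 2 ^ L with hh₀
  have hh₀0 : 0 < h₀ := by positivity
  -- filling
  have F1 := hfil Ω Z p (2 ^ L) 1 (fun ω => zx (x ω)) (fun ω i => posS pos L (x ω) (some i))
    (fun ω => rp (2 ^ L) (posS pos L) (x ω)) (fun _ _ => 0) G R S hp le_rfl Nat.one_le_two_pow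
    (fun ω _ i => hSm.pos_lt ω (some i)) hR
    (by
      intro ω hω
      have h1 := hH.reg ω hω
      simp only [Nat.cast_one, div_one]
      exact ⟨h1.deg, fun y hy i => (h1.slope y hy i).trans (by linarith)⟩)
    (by
      intro ω hω i
      simp only [rp, Nat.cast_one, one_mul, zero_add])
    (by
      intro ω hω
      refine (hH.gr ω hω).trans ?_
      rw [Nat.cast_one, one_mul, hM]
      exact div_le_div_of_nonneg_right (by linarith) h2L.le)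
    (by
      intro ω hω
      obtain ⟨hS0, z, hz, hSz⟩ := hS ω hω
      refine ⟨hS0, z, ?_, ?_, ?_, ?_⟩
      · rw [Nat.cast_one, div_one]
        exact hz.1
      · have h1 := hH.nbh hω
        have h2 := (hH.reg ω hω).dist_le hz.1 h1.1
        have h4 : 3 * C₀ / 2 ^ L ≤ 3 * C₀ := by
          rw [div_le_iff₀ h2L]
          nlinarith
        have h5 := abs_sub_le (z none) (MvPolynomial.eval (fun i => z (some i)) (G (zx (x ω))))
          (rp (2 ^ L) (posS pos L) (x ω) none)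
        have h6 := abs_sub_le (MvPolynomial.eval (fun i => z (some i)) (G (zx (x ω))))
          (MvPolynomial.eval (fun i => rp (2 ^ L) (posS pos L) (x ω) (some i)) (G (zx (x ω))))
          (rp (2 ^ L) (posS pos L) (x ω) none)
        have h3 := h1.2
        rw [abs_sub_comm] at h3
        have h7 := hz.2
        have h8 : n * (3 * C₀) + 6 * C₀ ≤ C₅ := by
          rw [hC₅]
          have : 0 ≤ C₀ := hC0.le
          linarith
        linarith
      · refine hz.2.trans ?_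
        rw [Nat.cast_one, one_mul, hM]
        exact div_le_div_of_nonneg_right (by linarith) h2L.le
      · refine hSz.trans ?_
        rw [Nat.cast_one, one_mul, hM]
        exact Psi_mono _ _ _ hh₀0.le (div_le_div_of_nonneg_right h5C h2L.le) _)
  -- the deficit
  have hful' := hful Ω (Λ × ℕ) Ξ Z p (lamS lam x T L) x (TS T L) (posS pos L)
    (AS A B zl cz a) (BS B) zx (fun l => zl l.1 l.2) L κ γ δ ε e₁ e hSm
    (fun ω _ => hF.lab ω) hH.hδ hH.he hH.hex (NCF_small hH.hnc)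
    (by
      refine le_trans ?_ hH.hγ
      have h1 : (0 : ℝ) ≤ n.factorial := Nat.cast_nonneg _
      refine mul_le_mul_of_nonneg_left ?_ h1
      exact pow_le_pow_left₀ (by linarith) (by linarith) _) hH.hκ hH.he₁
  set RR' : ℝ := RR n L κ γ N ε e₁ e₃ with hRR
  obtain ⟨hR0, hR1, hR2⟩ := hH.le_RR
  rw [← hRR] at hR0 hR1 hR2
  have he₁0 := hH.he₁0
  have he₃0 := hH.e₃_nonneg
  set E : ℝ := L / κ + γ + κ + 1 + ε * L with hE
  have hER : E ≤ RR' := by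
    rw [hE]
    linarith
  have hdef : n * Real.log ((2 ^ L : ℕ) : ℝ) -
      CH p (fun ω i => posS pos L (x ω) (some i)) (fun ω => zx (x ω)) ≤ n * e₁ + Cu * E := by
    rw [hM, Real.log_pow]
    exact hful'
  -- the radius
  have hrad : ∀ ω, 0 < p ω → Real.log (Psi (R (zx (x ω)))
      (C₅ / (((1 : ℕ) : ℝ) * ((2 ^ L : ℕ) : ℝ))) (rp (2 ^ L) (posS pos L) (x ω))) ≤
      Real.log (Psi (R (zx (x ω))) h₀ (rp (2 ^ L) (posS pos L) (x ω))) + D * Real.log M₅ := by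
    intro ω hω
    obtain ⟨hRne, hRD⟩ := hR ω hω
    have e1 : C₅ / (((1 : ℕ) : ℝ) * ((2 ^ L : ℕ) : ℝ)) = h₀ * M₅ := by
      rw [hM, Nat.cast_one, one_mul, hM₅, hh₀]
      field_simp
    have h1 := Psi_radius_le (R (zx (x ω))) h₀ M₅ hM₅1 (rp (2 ^ L) (posS pos L) (x ω))
    have h4 : 0 < Psi (R (zx (x ω))) h₀ (rp (2 ^ L) (posS pos L) (x ω)) :=
      Psi_pos _ hRne h₀ hh₀0 _
    have h5 : 0 < Psi (R (zx (x ω))) (h₀ * M₅) (rp (2 ^ L) (posS pos L) (x ω)) :=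
      Psi_pos _ hRne _ (by positivity) _
    rw [e1]
    have h6 : Psi (R (zx (x ω))) (h₀ * M₅) (rp (2 ^ L) (posS pos L) (x ω)) ≤
        M₅ ^ D * Psi (R (zx (x ω))) h₀ (rp (2 ^ L) (posS pos L) (x ω)) :=
      h1.trans (mul_le_mul_of_nonneg_right (pow_le_pow_right₀ hM₅1 hRD) h4.le)
    have h7 := Real.log_le_log h5 h6
    rw [Real.log_mul (by positivity) h4.ne', Real.log_pow] at h7
    linarith
  have F2 := Ex_mono hp0 hrad
  rw [Ex_add, Ex_const hp.sum_one] at F2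
  have F3 := mul_le_mul_of_nonneg_left (add_le_add_left hdef Cf) hκ'
  have F4 : κ' * (n * e₁ + Cu * E + Cf) ≤ κ' * (n + Cu + Cf) * RR' := by
    have h2 : (n : ℝ) * e₁ ≤ n * RR' := mul_le_mul_of_nonneg_left (by linarith) hn0
    have h3 : Cu * E ≤ Cu * RR' := mul_le_mul_of_nonneg_left hER hCu
    have h4 : Cf * 1 ≤ Cf * RR' := mul_le_mul_of_nonneg_left hR1 hCf
    have h1 : n * e₁ + Cu * E + Cf ≤ (n + Cu + Cf) * RR' := by linarith
    calc κ' * (n * e₁ + Cu * E + Cf) ≤ κ' * ((n + Cu + Cf) * RR') :=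
        mul_le_mul_of_nonneg_left h1 hκ'
      _ = _ := by ring
  have F5 : D * Real.log M₅ ≤ D * Real.log M₅ * RR' := by
    have h1 : 0 ≤ D * Real.log M₅ := by positivity
    have h2 : D * Real.log M₅ * 1 ≤ D * Real.log M₅ * RR' :=
      mul_le_mul_of_nonneg_left (by linarith) h1
    linarith
  linarith

end Pool.KS3
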