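import Pool.Agent.H82.KSP.SUBC

/-!
# Remez inequality on parts of a leaf, all polynomials at once

Row J3a of LEMMA J, (F6) of `K_JUMP_helper79.md`: the leaf is cut into parts, `zw` is the label of
the part. Outside a small event the norm of the leaf is at most `exp h` times the norm of the part
of the random point, for all polynomials of degree at most `D` at once.
-/

set_option autoImplicit false

namespace Pool.KS3

open Finset Real Module
open Pool.Agent.H49.Ent Pool.Agent.H32.Dense Pool.STK Pool.KAF Pool.KAL Pool.KST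

/-- Row LRU: parts given by an arbitrary refinement of the label. -/
theorem lru (n D k₀ : ℕ) (C₀ : ℝ) (hC₀ : 1 ≤ C₀) : ∃ C : ℝ, 0 ≤ C ∧
    ∀ (a L : ℕ) (Ω Λ Ξ Z W : Type) [Fintype Ω] (p : Ω → ℝ) (lam : Ω → Λ)
      (x : Ω → Ξ) (T : Ξ → ℕ) (pos : Ξ → Option (Fin n) → ℕ) (A B : Λ → Option (Fin n) → ℝ)
      (zx : Ξ → Z) (zl : Λ → ℕ → Z) (cz : Z → Option (Fin n) → ℕ)
      (G : Z → MvPolynomial (Fin n) ℝ) (κ γ N : ℕ) (δ ε e₁ e₃ s h : ℝ) (e : Ξ → ℝ)
      (zw : Ξ → W),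
      StepH n a L C₀ k₀ κ γ N δ ε e₁ e₃ p lam x T pos A B zx zl cz G e →
      (∀ ω ω', 0 < p ω → 0 < p ω' → zw (x ω) = zw (x ω') → zx (x ω) = zx (x ω')) →
      0 < s → s ≤ 1 → 0 < h →
      (∑ ω, (open Classical in
        if ∃ F : MvPolynomial.restrictTotalDegree (Option (Fin n)) ℝ D, F ≠ 0 ∧
          Real.exp h * NZ D p x zw (2 ^ (a + L)) pos (6 * C₀ / 2 ^ (a + L)) s (zw (x ω)) F <
          NZ D p x zx (2 ^ (a + L)) pos (6 * C₀ / 2 ^ (a + L)) s (zx (x ω)) F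
        then p ω else 0)) ≤
        (2 * D * CH p (fun ω => zw (x ω)) (fun ω => zx (x ω)) +
          C * RR n L κ γ N ε e₁ e₃) / h := by
  classical
  obtain ⟨C, hC, H⟩ := lrg n D k₀ C₀ hC₀
  refine ⟨C, hC, ?_⟩
  intro a L Ω Λ Ξ Z W _ p lam x T pos A B zx zl cz G κ γ N δ ε e₁ e₃ s h e zw hF hzw hs0 hs1 hh
  have hp := hF.step.leaf.isLaw
  have hp0 := hp.nonneg
  set h₀ : ℝ := 6 * C₀ / 2 ^ (a + L) with hh₀
  have hh₀0 : 0 < h₀ := by
    have : (0 : ℝ) < C₀ := by linarith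
    positivity
  set M : ℕ := 2 ^ (a + L) with hM
  set V := MvPolynomial.restrictTotalDegree (Option (Fin n)) ℝ D with hV
  -- the bad labels
  set bad : Z × W → V → Prop := fun g F => F ≠ 0 ∧
    Real.exp h * NZ D p x zw M pos h₀ s g.2 F < NZ D p x zx M pos h₀ s g.1 F with hbad
  set Fc : Z × W → V := fun g => if hg : ∃ F : V, bad g F then hg.choose else onV _ D with hFc
  have hFcne : ∀ g, Fc g ≠ 0 := by
    intro g
    simp only [hFc]
    split_ifs with hg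
    · exact hg.choose_spec.1
    · exact onV_ne_zero _ _
  have h1 := H a L Ω Λ Ξ Z Ω (Z × W) p lam x T pos A B zx zl cz G κ γ N δ ε e₁ e₃ s e p x
    (fun ω => (zx (x ω), zw (x ω))) Fc hF.step hF.reg hF.gr hF.hδ hF.he hF.hex hF.hnc hF.hγ hF.hκ
    hF.he₁ hF.he₁0 hF.he₃ hs0 hs1 hp (fun _ => rfl) hFcne
  have h2 : CH p (fun ω => (zx (x ω), zw (x ω))) (fun ω => zx (x ω)) =
      CH p (fun ω => zw (x ω)) (fun ω => zx (x ω)) := by
    refine CH_congr hp0 ?_ ?_ (fun _ _ _ _ h => h) (fun _ _ _ _ h => h)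
    · intro ω ω' _ _ h
      simp only [Prod.mk.injEq] at h
      exact h.1.2
    · intro ω ω' _ _ h
      simp only [Prod.mk.injEq] at h
      simp only [h.1, h.2]
  have h3 : CH p (fun ω => (zx (x ω), zw (x ω))) x = 0 := CH_eq_zero hp0 (fun ω ω' _ _ h => by
    have h4 : x ω = x ω' := h
    simp only [h4])
  rw [h2, h3, sub_zero] at h1
  -- the norm of the part
  have h4 : Ex p (fun ω => Real.log (PsiC s (Fc (zx (x ω), zw (x ω)) :
      MvPolynomial (Option (Fin n)) ℝ) h₀ (rp M pos (x ω)))) ≤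
      Ex p (fun ω => Real.log (NZ D p x zw M pos h₀ s (zw (x ω)) (Fc (zx (x ω), zw (x ω))))) := by
    refine Ex_mono hp0 fun ω hω => ?_
    have hne : ((Fc (zx (x ω), zw (x ω)) : V) : MvPolynomial (Option (Fin n)) ℝ) ≠ 0 :=
      fun h0 => hFcne _ (Subtype.ext h0)
    exact Real.log_le_log (PsiC_pos hs0.ne' hne hh₀0 _) (le_NZ hs0.ne' hω _)
  -- the part is smaller
  have h5 : ∀ ω, 0 < p ω → ∀ F : V, NZ D p x zw M pos h₀ s (zw (x ω)) F ≤
      NZ D p x zx M pos h₀ s (zx (x ω)) F := by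
    intro ω hω F
    obtain ⟨ω', hω', hz, he⟩ := NZ_attained (D := D) (x := x) (zx := zw) (M := M) (pos := pos)
      (h := h₀) hs0.ne' hω F
    rw [he, ← hzw ω' ω hω' hω hz]
    exact le_NZ hs0.ne' hω' F
  have h6 : (∑ ω, if ∃ F : V, bad (zx (x ω), zw (x ω)) F then p ω else 0) * h ≤
      Ex p (fun ω => Real.log (NZ D p x zx M pos h₀ s (zx (x ω)) (Fc (zx (x ω), zw (x ω)))) -
        Real.log (NZ D p x zw M pos h₀ s (zw (x ω)) (Fc (zx (x ω), zw (x ω))))) := by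
    rw [Finset.sum_mul]
    unfold Ex
    refine Finset.sum_le_sum fun ω _ => ?_
    by_cases hω : 0 < p ω
    · have hb1 := NZ_pos (D := D) (p := p) (x := x) (zx := zw) (M := M) (pos := pos) hh₀0 hs0
        (zw (x ω)) (hFcne (zx (x ω), zw (x ω)))
      split_ifs with hg
      · refine mul_le_mul_of_nonneg_left ?_ hω.le
        have hg1 : bad (zx (x ω), zw (x ω)) (Fc (zx (x ω), zw (x ω))) := by
          simp only [hFc]
          rw [dif_pos hg]
          exact hg.choose_spec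
        have hg2 := Real.log_le_log (mul_pos (Real.exp_pos h) hb1) hg1.2.le
        rw [Real.log_mul (Real.exp_pos h).ne' hb1.ne', Real.log_exp] at hg2
        linarith
      · rw [zero_mul]
        refine mul_nonneg hω.le ?_
        have := Real.log_le_log hb1 (h5 ω hω (Fc (zx (x ω), zw (x ω))))
        linarith
    · have h0 : p ω = 0 := le_antisymm (not_lt.mp hω) (hp0 ω)
      rw [h0]
      simp
  rw [Ex_sub] at h6
  rw [le_div_iff₀ hh]
  have h7 : (∑ ω, if ∃ F : V, F ≠ 0 ∧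
      Real.exp h * NZ D p x zw M pos h₀ s (zw (x ω)) F < NZ D p x zx M pos h₀ s (zx (x ω)) F
      then p ω else 0) * h ≤ Ex p (fun ω => Real.log (NZ D p x zx M pos h₀ s (zx (x ω))
        (Fc (zx (x ω), zw (x ω))))) - Ex p (fun ω => Real.log (NZ D p x zw M pos h₀ s (zw (x ω))
        (Fc (zx (x ω), zw (x ω))))) := h6
  unfold RR
  linarith

/-- The number of small cubes of a leaf. -/
theorem CH_zx2_le {n a L L' u : ℕ} {C₀ : ℝ} {Ω Λ Ξ Z : Type} [Fintype Ω] {p : Ω → ℝ}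
    {lam : Ω → Λ} {x : Ω → Ξ} {T : Ξ → ℕ} {pos : Ξ → Option (Fin n) → ℕ}
    {A B : Λ → Option (Fin n) → ℝ} {zx : Ξ → Z} {zl : Λ → ℕ → Z}
    {cz : Z → Option (Fin n) → ℕ} (h : StepF n a L C₀ p lam x T pos A B zx zl cz)
    (hL : u + L' = L) :
    CH p (fun ω => zx2 L' pos zx (x ω)) (fun ω => zx (x ω)) ≤ (n + 1) * (u * Real.log 2) := by
  classical
  have hp := h.leaf.isLaw
  have hp0 := hp.nonneg
  have h1 := CH_le_card hp0 hp.sum_one (fun ω => zx2 L' pos zx (x ω)) (fun ω => zx (x ω))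
    (fun ζ => (Fintype.piFinset (fun o : Option (Fin n) =>
      Finset.Ico (2 ^ u * cz ζ o) (2 ^ u * cz ζ o + 2 ^ u))).map
        ⟨fun b => (ζ, b), fun b b' hb => (Prod.ext_iff.mp hb).2⟩) (by
      intro ω _
      rw [Finset.mem_map]
      refine ⟨cel (2 ^ L') pos (x ω), ?_, rfl⟩
      rw [Fintype.mem_piFinset]
      intro o
      have h2 := h.cell ω o
      rw [← h2, Finset.mem_Ico]
      unfold cel
      subst hL
      have h3 : pos (x ω) o / 2 ^ (u + L') = pos (x ω) o / 2 ^ L' / 2 ^ u := by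
        rw [Nat.div_div_eq_div_mul, ← pow_add, Nat.add_comm u L']
      rw [h3]
      have h4 := Nat.div_add_mod (pos (x ω) o / 2 ^ L') (2 ^ u)
      have h5 := Nat.mod_lt (pos (x ω) o / 2 ^ L') (Nat.two_pow_pos u)
      constructor <;> omega)
  refine h1.trans (le_of_eq ?_)
  have h2 : ∀ ζ : Z, ((((Fintype.piFinset (fun o : Option (Fin n) =>
      Finset.Ico (2 ^ u * cz ζ o) (2 ^ u * cz ζ o + 2 ^ u))).map
        ⟨fun b => (ζ, b), fun b b' hb => (Prod.ext_iff.mp hb).2⟩ :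
        Finset (Z × (Option (Fin n) → ℕ))).card : ℕ) : ℝ) = (2 : ℝ) ^ (u * (n + 1)) := by
    intro ζ
    rw [Finset.card_map, Fintype.card_piFinset]
    simp only [Nat.card_Ico, Nat.add_sub_cancel_left, Finset.prod_const, Finset.card_univ,
      Fintype.card_option, Fintype.card_fin]
    push_cast
    rw [← pow_mul]
  simp only [h2]
  rw [Ex_const hp.sum_one, Real.log_pow]
  push_cast
  ring

/-- **Row J3a.** Small cubes: the price is `2 D (n + 1) u log 2`. -/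
theorem lru_cube (n D k₀ : ℕ) (C₀ : ℝ) (hC₀ : 1 ≤ C₀) : ∃ C : ℝ, 0 ≤ C ∧
    ∀ (a L L' u : ℕ) (Ω Λ Ξ Z : Type) [Fintype Ω] (p : Ω → ℝ) (lam : Ω → Λ)
      (x : Ω → Ξ) (T : Ξ → ℕ) (pos : Ξ → Option (Fin n) → ℕ) (A B : Λ → Option (Fin n) → ℝ)
      (zx : Ξ → Z) (zl : Λ → ℕ → Z) (cz : Z → Option (Fin n) → ℕ)
      (G : Z → MvPolynomial (Fin n) ℝ) (κ γ N : ℕ) (δ ε e₁ e₃ s h : ℝ) (e : Ξ → ℝ),
      StepH n a L C₀ k₀ κ γ N δ ε e₁ e₃ p lam x T pos A B zx zl cz G e →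
      u + L' = L → 0 < s → s ≤ 1 → 0 < h →
      (∑ ω, (open Classical in
        if ∃ F : MvPolynomial.restrictTotalDegree (Option (Fin n)) ℝ D, F ≠ 0 ∧
          Real.exp h * NZ D p x (zx2 L' pos zx) (2 ^ (a + L)) pos (6 * C₀ / 2 ^ (a + L)) s
            (zx2 L' pos zx (x ω)) F <
          NZ D p x zx (2 ^ (a + L)) pos (6 * C₀ / 2 ^ (a + L)) s (zx (x ω)) F
        then p ω else 0)) ≤
        (2 * D * ((n + 1) * (u * Real.log 2)) + C * RR n L κ γ N ε e₁ e₃) / h := by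
  obtain ⟨C, hC, H⟩ := lru n D k₀ C₀ hC₀
  refine ⟨C, hC, ?_⟩
  intro a L L' u Ω Λ Ξ Z _ p lam x T pos A B zx zl cz G κ γ N δ ε e₁ e₃ s h e hF hL hs0 hs1 hh
  refine (H a L Ω Λ Ξ Z (Z × (Option (Fin n) → ℕ)) p lam x T pos A B zx zl cz G κ γ N δ ε e₁ e₃ s
    h e (zx2 L' pos zx) hF ?_ hs0 hs1 hh).trans ?_
  · intro ω ω' _ _ hz
    exact (Prod.ext_iff.mp hz).1
  · refine div_le_div_of_nonneg_right ?_ hh.le
    have h1 := CH_zx2_le hF.step hL
    have h2 : (0 : ℝ) ≤ 2 * D := by positivity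
    have h3 := mul_le_mul_of_nonneg_left h1 h2
    linarith

end Pool.KS3
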