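import Pool.Agent.H74.KJ.FLZ

/-!
# Two-sided transfer from the first leaf to the second point of the line

The polynomial is a function of the first label. The supremum of its jets near the first leaf and
the jet at the second point of the line are comparable in the mean; the price is linear in the
length `a` of the window.
-/

set_option autoImplicit false

namespace Pool.KS3

open Finset Real Module
open Pool.Agent.H49.Ent Pool.Agent.H32.Dense Pool.STK Pool.KAF Pool.KAL Pool.KST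

section TT

variable {n : ℕ}

/-- The supremum of the jets near the graph over the unit cube. -/
noncomputable def TT (G : MvPolynomial (Fin n) ℝ) (r : ℝ) (R : MvPolynomial (Option (Fin n)) ℝ)
    (h : ℝ) : ℝ := sSup ((fun z => Psi R h z) '' {z | Nbh G r z})

lemma nbh_gpt (G : MvPolynomial (Fin n) ℝ) {r : ℝ} (hr : 0 ≤ r) {y : Fin n → ℝ}
    (hy : y ∈ cube (fun _ => 0) 1) : Nbh G r (gpt G y) := by
  refine ⟨hy, ?_⟩
  have e1 : gpt G y none - MvPolynomial.eval (fun i => gpt G y (some i)) G = 0 := sub_self _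
  rw [e1, abs_zero]
  exact hr

lemma zero_mem_cube : (fun _ : Fin n => (0 : ℝ)) ∈ cube (fun _ => 0) 1 :=
  fun _ => ⟨le_rfl, by norm_num⟩

lemma Nbh.dist {G : MvPolynomial (Fin n) ℝ} {k₀ : ℕ} {C₀ r : ℝ}
    (hG : RegG G (fun _ => 0) 1 k₀ C₀) (hC₀ : 0 ≤ C₀) (hr : 0 ≤ r) {z z' : Option (Fin n) → ℝ}
    (hz : Nbh G r z) (hz' : Nbh G r z') (o : Option (Fin n)) :
    |z o - z' o| ≤ 1 + n * C₀ + 2 * r := by
  have hn : 0 ≤ n * C₀ := by positivity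
  cases o with
  | none =>
    have h1 := hG.dist_le hz.1 hz'.1
    have h2 := hz.2
    have h3 := hz'.2
    have h5 := abs_sub_le (z none) (MvPolynomial.eval (fun i => z (some i)) G) (z' none)
    have h6 := abs_sub_le (MvPolynomial.eval (fun i => z (some i)) G)
      (MvPolynomial.eval (fun i => z' (some i)) G) (z' none)
    rw [abs_sub_comm] at h3
    linarith
  | some i =>
    have h1 := hz.1 i
    have h2 := hz'.1 i
    simp only at h1 h2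
    rw [abs_le]
    constructor <;> linarith [h1.1, h1.2, h2.1, h2.2]

lemma TT_bdd {G : MvPolynomial (Fin n) ℝ} {k₀ : ℕ} {C₀ r : ℝ}
    (hG : RegG G (fun _ => 0) 1 k₀ C₀) (hC₀ : 0 ≤ C₀) (hr : 0 ≤ r)
    (R : MvPolynomial (Option (Fin n)) ℝ) {h : ℝ} (hh : 0 < h) :
    BddAbove ((fun z => Psi R h z) '' {z | Nbh G r z}) := by
  set z₀ : Option (Fin n) → ℝ := gpt G (fun _ => 0) with hz₀
  have h0 : Nbh G r z₀ := nbh_gpt G hr zero_mem_cube
  refine ⟨(1 + (1 + n * C₀ + 2 * r) / h) ^ R.totalDegree * Psi R h z₀, ?_⟩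
  rintro _ ⟨z, hz, rfl⟩
  refine Psi_le_of_dist R h _ hh (by positivity) z₀ z fun o => ?_
  rw [div_mul_cancel₀ _ hh.ne']
  exact hz.dist hG hC₀ hr h0 o

lemma le_TT {G : MvPolynomial (Fin n) ℝ} {k₀ : ℕ} {C₀ r : ℝ}
    (hG : RegG G (fun _ => 0) 1 k₀ C₀) (hC₀ : 0 ≤ C₀) (hr : 0 ≤ r)
    (R : MvPolynomial (Option (Fin n)) ℝ) {h : ℝ} (hh : 0 < h) {z : Option (Fin n) → ℝ}
    (hz : Nbh G r z) : Psi R h z ≤ TT G r R h :=
  le_csSup (TT_bdd hG hC₀ hr R hh) ⟨z, hz, rfl⟩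

lemma TT_le {G : MvPolynomial (Fin n) ℝ} {r : ℝ} (hr : 0 ≤ r)
    (R : MvPolynomial (Option (Fin n)) ℝ) {h B : ℝ} (hB : ∀ z, Nbh G r z → Psi R h z ≤ B) :
    TT G r R h ≤ B := by
  refine csSup_le ⟨_, ⟨gpt G (fun _ => 0), nbh_gpt G hr zero_mem_cube, rfl⟩⟩ ?_
  rintro _ ⟨z, hz, rfl⟩
  exact hB z hz

lemma TT_pos {G : MvPolynomial (Fin n) ℝ} {k₀ : ℕ} {C₀ r : ℝ}
    (hG : RegG G (fun _ => 0) 1 k₀ C₀) (hC₀ : 0 ≤ C₀) (hr : 0 ≤ r)
    {R : MvPolynomial (Option (Fin n)) ℝ} (hR : R ≠ 0) {h : ℝ} (hh : 0 < h) :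
    0 < TT G r R h :=
  (Psi_pos R hR h hh _).trans_le (le_TT hG hC₀ hr R hh (nbh_gpt G hr zero_mem_cube))

lemma TT_nonneg {G : MvPolynomial (Fin n) ℝ} {k₀ : ℕ} {C₀ r : ℝ}
    (hG : RegG G (fun _ => 0) 1 k₀ C₀) (hC₀ : 0 ≤ C₀) (hr : 0 ≤ r)
    (R : MvPolynomial (Option (Fin n)) ℝ) {h : ℝ} (hh : 0 < h) :
    0 ≤ TT G r R h :=
  (Psi_nonneg R h _).trans (le_TT hG hC₀ hr R hh (nbh_gpt G hr zero_mem_cube))

/-- The supremum is attained up to a factor `2`. -/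
lemma TT_near {G : MvPolynomial (Fin n) ℝ} {k₀ : ℕ} {C₀ r : ℝ}
    (hG : RegG G (fun _ => 0) 1 k₀ C₀) (hC₀ : 0 ≤ C₀) (hr : 0 ≤ r)
    {R : MvPolynomial (Option (Fin n)) ℝ} (hR : R ≠ 0) {h : ℝ} (hh : 0 < h) :
    ∃ z, Nbh G r z ∧ TT G r R h / 2 ≤ Psi R h z := by
  have h1 := TT_pos hG hC₀ hr hR hh
  obtain ⟨_, ⟨z, hz, rfl⟩, h2⟩ := exists_lt_of_lt_csSup
    (s := (fun z => Psi R h z) '' {z | Nbh G r z})
    ⟨_, ⟨gpt G (fun _ => 0), nbh_gpt G hr zero_mem_cube, rfl⟩⟩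
    (show TT G r R h / 2 < TT G r R h by linarith)
  exact ⟨z, hz, h2.le⟩

end TT

/-- The supremum of the jets of `F` near the leaf `ζ`; `F` is in the units of the long window. -/
noncomputable def TZ {Z : Type} {n : ℕ} (a L : ℕ) (C₀ : ℝ) (cz : Z → Option (Fin n) → ℕ)
    (G : Z → MvPolynomial (Fin n) ℝ) (F : MvPolynomial (Option (Fin n)) ℝ) (ζ : Z) : ℝ :=
  TT (G ζ) (3 * C₀ / 2 ^ L) (shf F (1 / 2 ^ a) (crz cz a ζ)) (6 * C₀ / 2 ^ L)

lemma shf_ne_zero {σ : Type} {F : MvPolynomial σ ℝ} (hF : F ≠ 0) {h : ℝ} (hh : 0 < h)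
    (x : σ → ℝ) : shf F h x ≠ 0 := by
  intro h0
  have h1 := Psi_pos F hF h hh x
  unfold Psi at h1
  rw [h0, coefSum_zero] at h1
  exact lt_irrefl _ h1

section

variable {n a L : ℕ} {C₀ : ℝ} {k₀ : ℕ} {κ γ N : ℕ} {δ ε e₁ e₃ : ℝ} {Ω Λ Ξ Z : Type}
    [Fintype Ω] {p : Ω → ℝ} {lam : Ω → Λ} {x : Ω → Ξ} {T : Ξ → ℕ}
    {pos : Ξ → Option (Fin n) → ℕ} {A B : Λ → Option (Fin n) → ℝ} {zx : Ξ → Z}
    {zl : Λ → ℕ → Z} {cz : Z → Option (Fin n) → ℕ} {G : Z → MvPolynomial (Fin n) ℝ}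
    {e : Ξ → ℝ}

/-- Jets in the two units. -/
lemma StepH.Psi_eq (h : StepH n a L C₀ k₀ κ γ N δ ε e₁ e₃ p lam x T pos A B zx zl cz G e)
    (F : MvPolynomial (Option (Fin n)) ℝ) (k : ℝ) (ω : Ω) :
    Psi (shf F (1 / 2 ^ a) (crz cz a (zx (x ω)))) (k / 2 ^ L)
      (rp (2 ^ L) (posS pos L) (x ω)) =
    Psi F (k / 2 ^ (a + L)) (rp (2 ^ (a + L)) pos (x ω)) := by
  rw [← PsiC_one, h.step.PsiC_eq one_ne_zero, PsiC_one]

lemma StepH.le_TZ (h : StepH n a L C₀ k₀ κ γ N δ ε e₁ e₃ p lam x T pos A B zx zl cz G e)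
    (hC₀ : 1 ≤ C₀) (F : MvPolynomial (Option (Fin n)) ℝ) {ω : Ω} (hω : 0 < p ω) :
    Psi F (6 * C₀ / 2 ^ (a + L)) (rp (2 ^ (a + L)) pos (x ω)) ≤
      TZ a L C₀ cz G F (zx (x ω)) := by
  rw [← h.Psi_eq]
  exact le_TT (h.reg ω hω) (by linarith) (by positivity) _ (by positivity) (h.nbh hω)

lemma StepH.TZ_pos (h : StepH n a L C₀ k₀ κ γ N δ ε e₁ e₃ p lam x T pos A B zx zl cz G e)
    (hC₀ : 1 ≤ C₀) {F : MvPolynomial (Option (Fin n)) ℝ} (hF : F ≠ 0) {ω : Ω} (hω : 0 < p ω) :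
    0 < TZ a L C₀ cz G F (zx (x ω)) :=
  TT_pos (h.reg ω hω) (by linarith) (by positivity) (shf_ne_zero hF (by positivity) _)
    (by positivity)

end

/-- **Row TRZ.** Two-sided transfer. -/
theorem trz (n D : ℕ) (C₀ : ℝ) (hC₀ : 1 ≤ C₀) (k₀ : ℕ) : ∃ C : ℝ, 0 ≤ C ∧
    ∀ (a L : ℕ) (Ω Λ Ξ Z : Type) [Fintype Ω] (p : Ω → ℝ) (lam : Ω → Λ)
      (x : Ω → Ξ) (T : Ξ → ℕ) (pos : Ξ → Option (Fin n) → ℕ) (A B : Λ → Option (Fin n) → ℝ)
      (zx : Ξ → Z) (zl : Λ → ℕ → Z) (cz : Z → Option (Fin n) → ℕ)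
      (G : Z → MvPolynomial (Fin n) ℝ) (κ γ N : ℕ) (δ ε e₁ e₃ eT : ℝ) (e : Ξ → ℝ)
      (F : Z → MvPolynomial (Option (Fin n)) ℝ),
      StepH n a L C₀ k₀ κ γ N δ ε e₁ e₃ p lam x T pos A B zx zl cz G e →
      (∀ ω, 0 < p ω → F (zx (x ω)) ≠ 0 ∧ (F (zx (x ω))).totalDegree ≤ D) →
      (a + L) * Real.log 2 - CH p (fun ω => T (x ω)) lam ≤ eT →
      Ex (dbl p lam) (fun v => |Real.log (TZ a L C₀ cz G (F (zx (x v.1))) (zx (x v.1))) -
        Real.log (Psi (F (zx (x v.1))) (6 * C₀ / 2 ^ (a + L))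
          (rp (2 ^ (a + L)) pos (x v.2)))|) ≤
        4 * D * (a * Real.log 2) + 2 * D * eT + C * RR n L κ γ N ε e₁ e₃ := by
  classical
  obtain ⟨Cf, hCf, hflz⟩ := flz n D k₀ C₀ hC₀
  obtain ⟨Co, hCo, hone⟩ := onep n D C₀ hC₀
  obtain ⟨Ct, hCt, htwo⟩ := two n D C₀ hC₀
  refine ⟨Cf + 1 + Ct + 2 * Co + 4 * D, by positivity, ?_⟩
  intro a L Ω Λ Ξ Z _ p lam x T pos A B zx zl cz G κ γ N δ ε e₁ e₃ eT e F hH hF heT
  have hS := hH.step
  have hp := hS.leaf.isLaw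
  have hp0 := hp.nonneg
  set q := dbl p lam with hqdef
  have hq0 : ∀ v, 0 ≤ q v := dbl_nonneg hp0
  have m1 : Marg q p (fun v => v.1) := dbl_fst hp0
  have hq : IsLaw q := ⟨hq0, by rw [m1.sum]; exact hp.sum_one⟩
  have hC0 : (0 : ℝ) < C₀ := by linarith
  set h : ℝ := 6 * C₀ / 2 ^ (a + L) with hh
  have hh0 : 0 < h := by positivity
  set M : ℕ := 2 ^ (a + L) with hM
  set RR' : ℝ := RR n L κ γ N ε e₁ e₃ with hRR
  obtain ⟨hR0, hR1, hR2⟩ := hH.le_RR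
  rw [← hRR] at hR0 hR1 hR2
  have he₁0 := hH.he₁0
  have he₃0 := hH.e₃_nonneg
  set Tz : Z → ℝ := fun ζ => TZ a L C₀ cz G (F ζ) ζ with hTz
  have hTz0 : ∀ ω, 0 < p ω → 0 < Tz (zx (x ω)) := fun ω hω => hH.TZ_pos hC₀ (hF ω hω).1 hω
  -- filling
  have E1 := hflz a L Ω Λ Ξ Z p lam x T pos A B zx zl cz G κ γ N δ ε e₁ e₃ e
    (fun ζ => shf (F ζ) (1 / 2 ^ a) (crz cz a ζ)) (fun ζ => Tz ζ / 2) hH
    (fun ω hω => ⟨shf_ne_zero (hF ω hω).1 (by positivity) _,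
      (totalDegree_shf_le _ _ _).trans (hF ω hω).2⟩)
    (by
      intro ω hω
      refine ⟨by
        have := hTz0 ω hω
        positivity, ?_⟩
      exact TT_near (hH.reg ω hω) (by linarith) (by positivity)
        (shf_ne_zero (hF ω hω).1 (by positivity) _) (by positivity))
  have E1' : Ex p (fun ω => Real.log (Tz (zx (x ω)) / 2)) =
      Ex p (fun ω => Real.log (Tz (zx (x ω)))) - Real.log 2 := by
    have h1 : Ex p (fun ω => Real.log (Tz (zx (x ω)) / 2)) =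
        Ex p (fun ω => Real.log (Tz (zx (x ω))) - Real.log 2) := by
      unfold Ex
      refine Finset.sum_congr rfl fun ω _ => ?_
      by_cases hω : 0 < p ω
      · dsimp only
        rw [Real.log_div (hTz0 ω hω).ne' (by norm_num)]
      · have h0 : p ω = 0 := le_antisymm (not_lt.mp hω) (hp0 ω)
        rw [h0, zero_mul, zero_mul]
    rw [h1, Ex_sub, Ex_const hp.sum_one]
  rw [E1'] at E1
  have E2' : Ex p (fun ω => Real.log (Psi (shf (F (zx (x ω))) (1 / 2 ^ a) (crz cz a (zx (x ω))))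
      (6 * C₀ / 2 ^ L) (rp (2 ^ L) (posS pos L) (x ω)))) =
      Ex p (fun ω => Real.log (PsiC 1 (F (zx (x ω))) h (rp M pos (x ω)))) := by
    unfold Ex
    refine Finset.sum_congr rfl fun ω _ => ?_
    dsimp only
    rw [hH.Psi_eq, PsiC_one]
  rw [E2'] at E1
  -- along the line
  have E2 := htwo a L Ω Λ Ξ Z Z p lam x T pos A B zx zl cz 1 (fun ω => zx (x ω)) F eT hS
    one_pos le_rfl hF heT
  have E3 := hone a L Ω Λ Ξ Z p lam x T pos A B zx zl cz 1 F Tz e₁ hS one_pos le_rfl hF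
    (fun ω hω => by
      rw [PsiC_one]
      exact hH.le_TZ hC₀ _ hω) hH.he₁
  have E4 : Ex q (fun v => |Real.log (Tz (zx (x v.1))) -
      Real.log (PsiC 1 (F (zx (x v.1))) h (rp M pos (x v.2)))|) =
      Ex q (fun v => Real.log (Tz (zx (x v.1)))) -
        Ex q (fun v => Real.log (PsiC 1 (F (zx (x v.1))) h (rp M pos (x v.2)))) +
        2 * Ex q (fun v => max 0 (Real.log (PsiC 1 (F (zx (x v.1))) h (rp M pos (x v.2))) -
          Real.log (Tz (zx (x v.1))))) := by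
    rw [← Ex_sub, ← Ex_smul, ← Ex_add]
    unfold Ex
    refine Finset.sum_congr rfl fun v _ => ?_
    congr 1
    dsimp only
    rcases le_total 0 (Real.log (Tz (zx (x v.1))) -
      Real.log (PsiC 1 (F (zx (x v.1))) h (rp M pos (x v.2)))) with h1 | h1
    · rw [abs_of_nonneg h1, max_eq_left (by linarith)]
      ring
    · rw [abs_of_nonpos h1, max_eq_right (by linarith)]
      ring
  have E5 : Ex q (fun v => Real.log (Tz (zx (x v.1)))) =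
      Ex p (fun ω => Real.log (Tz (zx (x ω)))) := m1.ex (fun ω => Real.log (Tz (zx (x ω))))
  have E6 : Ex q (fun v => |Real.log (TZ a L C₀ cz G (F (zx (x v.1))) (zx (x v.1))) -
        Real.log (Psi (F (zx (x v.1))) h (rp M pos (x v.2)))|) =
      Ex q (fun v => |Real.log (Tz (zx (x v.1))) -
      Real.log (PsiC 1 (F (zx (x v.1))) h (rp M pos (x v.2)))|) := by
    simp only [PsiC_one]
    rfl
  rw [E6, E4, E5]
  have hD : (0 : ℝ) ≤ D := Nat.cast_nonneg D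
  have hl : Real.log 2 ≤ 1 := by
    have := Real.log_two_lt_d9
    linarith
  have J1 : (Cf + 1 + Ct + 2 * Co + 4 * D) * RR' = Cf * RR' + (1 + Ct + 2 * Co) * RR' +
      4 * D * RR' := by ring
  have J2 : (1 + Ct + 2 * Co) * 1 ≤ (1 + Ct + 2 * Co) * RR' :=
    mul_le_mul_of_nonneg_left hR1 (by positivity)
  have J3 : 4 * D * e₁ ≤ 4 * D * RR' := mul_le_mul_of_nonneg_left (by linarith) (by positivity)
  rw [J1]
  linarith

end Pool.KS3
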